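import Mathlib
import Pool.Agent.Y411.PB.Blk

/-!
Lifting the exponent for all exponents; two solutions in the same class and the same block of
exponents are equal.
-/

set_option autoImplicit false

namespace Pool.Agent.Y411.UF

open Finset Pool.Agent.Y411.PB

/-- lifting the exponent, for all exponents -/
theorem lte {p q k : ℕ} (hp : p.Prime) {x y : ℤ} (hd : (p : ℤ) ∣ x - y)
    (hx : ¬ (p : ℤ) ∣ x) (h4 : p = 2 → (4 : ℤ) ∣ x - y) (h : (p : ℤ) ^ k ∣ x ^ q - y ^ q) :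
    (p : ℤ) ^ k ∣ q * (x - y) := by
  have hpi : Prime (p : ℤ) := Nat.prime_iff_prime_int.1 hp
  rw [pow_dvd_iff_le_emultiplicity] at h ⊢
  rw [emultiplicity_mul hpi]
  rcases hp.eq_two_or_odd' with h2 | h2
  · have e := Int.two_pow_sub_pow' (x := x) (y := y) q (h4 h2) (by
      rw [h2] at hx; exact_mod_cast hx)
    subst h2
    push_cast at h ⊢
    rw [e] at h
    rw [add_comm]
    exact h
  · have e := Int.emultiplicity_pow_sub_pow hp h2 hd hx q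
    rw [e, add_comm] at h
    rw [Int.natCast_emultiplicity]
    exact h

/-- two approximate `q`-th roots in the same class are congruent modulo a high power -/
theorem close {a M q : ℕ} {x y : ℤ} (hcop : IsCoprime x (a : ℤ))
    (hcl : ∀ p : ℕ, p.Prime → p ∣ a → (p : ℤ) ∣ x - y) (h4 : 2 ∣ a → (4 : ℤ) ∣ x - y)
    (h : (a : ℤ) ^ M ∣ x ^ q - y ^ q) : (a : ℤ) ^ M ∣ q * (x - y) := by
  have key : a ^ M ∣ ((q : ℤ) * (x - y)).natAbs := by
    rw [Nat.dvd_iff_prime_pow_dvd_dvd]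
    intro p k hp hk
    rcases Nat.eq_zero_or_pos k with hk0 | hk0
    · rw [hk0, pow_zero]; exact one_dvd _
    have hpa : p ∣ a := hp.dvd_of_dvd_pow ((dvd_pow_self p hk0.ne').trans hk)
    have hk' : ((p : ℤ)) ^ k ∣ (a : ℤ) ^ M := by exact_mod_cast hk
    have h1 := lte hp (hcl p hp hpa) (k := k) (by
      intro hpx
      have h2 : IsCoprime (p : ℤ) (a : ℤ) := hcop.of_isCoprime_of_dvd_left hpx
      have h3 : IsUnit (p : ℤ) := h2.isUnit_of_dvd' dvd_rfl (by exact_mod_cast hpa)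
      rw [Int.isUnit_iff] at h3
      have := hp.two_le
      omega) (by
      intro h2
      exact h4 (h2 ▸ hpa)) (hk'.trans h)
    have h3 := Int.natAbs_dvd_natAbs.2 h1
    rwa [Int.natAbs_pow, Int.natAbs_natCast] at h3
  have h2 : ((a ^ M : ℕ) : ℤ) ∣ (q : ℤ) * (x - y) := Int.natCast_dvd.2 key
  exact_mod_cast h2

/-- two solutions in the same class and the same block are equal -/
theorem merge_one {a b q m₁ n₁ m₂ n₂ y₁ y₂ M t : ℕ} {e₁ e₂ : ℤ} (ha : 2 ≤ a) (hb : 2 ≤ b)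
    (hab : Nat.Coprime a b) (hq : 2 ≤ q) (he₁ : e₁ = 1 ∨ e₁ = -1) (he₂ : e₂ = 1 ∨ e₂ = -1)
    (hm₁ : 1 ≤ m₁) (hn₁ : 1 ≤ n₁) (hn₂ : 1 ≤ n₂) (hy₁ : 0 < y₁) (hy₂ : 0 < y₂)
    (h₁ : (y₁ : ℤ) ^ q = e₁ * (a : ℤ) ^ m₁ + e₂ * (b : ℤ) ^ n₁)
    (h₂ : (y₂ : ℤ) ^ q = e₁ * (a : ℤ) ^ m₂ + e₂ * (b : ℤ) ^ n₂)
    (hle₁ : b ^ n₁ ≤ a ^ m₁) (hle₂ : b ^ n₂ ≤ a ^ m₂) (hM₁ : M ≤ m₁) (hM₂ : M ≤ m₂)
    (hM₁' : 4 * m₁ ≤ 5 * M) (hM₂' : 4 * m₂ ≤ 5 * M) (hbig : 4 * q ^ 4 ≤ a ^ M)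
    (hn : n₂ = n₁ + q * t) (hD : b ^ (4 * (q * t)) ≤ a ^ M)
    (hcl : ∀ p : ℕ, p.Prime → p ∣ a → (p : ℤ) ∣ (y₁ : ℤ) * b ^ t - y₂)
    (h4 : 2 ∣ a → (4 : ℤ) ∣ (y₁ : ℤ) * b ^ t - y₂) : m₁ = m₂ ∧ n₁ = n₂ := by
  have haz : 1 ≤ a := by omega
  have hq0 : 0 < q := by omega
  set G : Finset (ℕ × ℕ) := {(m₁, n₁)} with hG
  have hB₁ : Block a b q e₁ e₂ {(m₁, n₁)} (fun _ => y₁) M n₁ 0 := by
    refine ⟨?_, ?_, ?_, ?_, ?_, ?_, ?_, ?_, ?_, hbig⟩
    all_goals (try (intro x hx; rw [mem_singleton] at hx; subst hx))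
    · exact hy₁
    · exact h₁
    · exact ⟨hm₁, hn₁⟩
    · exact hle₁
    · exact hM₁
    · exact hM₁'
    · exact le_rfl
    · exact le_rfl
    · simpa using Nat.one_le_pow _ _ haz
  have hm₂ : 1 ≤ m₂ := by omega
  have hB₂ : Block a b q e₁ e₂ {(m₂, n₂)} (fun _ => y₂) M n₂ 0 := by
    refine ⟨?_, ?_, ?_, ?_, ?_, ?_, ?_, ?_, ?_, hbig⟩
    all_goals (try (intro x hx; rw [mem_singleton] at hx; subst hx))
    · exact hy₂
    · exact h₂
    · exact ⟨hm₂, hn₂⟩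
    · exact hle₂
    · exact hM₂
    · exact hM₂'
    · exact le_rfl
    · exact le_rfl
    · simpa using Nat.one_le_pow _ _ haz
  have hs₁ := hB₁.size he₁ he₂ haz (mem_singleton_self _)
  have hs₂ := hB₂.size he₁ he₂ haz (mem_singleton_self _)
  have hca : Nat.Coprime y₁ a := hB₁.coprime_a hab he₂ hq0 (mem_singleton_self _)
  have hcb : Nat.Coprime y₂ b := hB₂.coprime_b hab he₁ hq0 (mem_singleton_self _)
  have hcop : IsCoprime ((y₁ * b ^ t : ℕ) : ℤ) (a : ℤ) := by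
    rw [Nat.isCoprime_iff_coprime]
    exact Nat.Coprime.mul_left hca (hab.symm.pow_left t)
  have hdvd : (a : ℤ) ^ M ∣ (((y₁ * b ^ t : ℕ)) : ℤ) ^ q - (y₂ : ℤ) ^ q := by
    have e : (((y₁ * b ^ t : ℕ)) : ℤ) ^ q - (y₂ : ℤ) ^ q
        = e₁ * (a : ℤ) ^ m₁ * (b : ℤ) ^ (q * t) - e₁ * (a : ℤ) ^ m₂ := by
      push_cast
      rw [mul_pow, h₁, h₂, hn, pow_add, ← pow_mul, mul_comm t q]; ring
    rw [e]
    exact dvd_sub (dvd_mul_of_dvd_left (dvd_mul_of_dvd_right (pow_dvd_pow _ hM₁) _) _)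
      (dvd_mul_of_dvd_right (pow_dvd_pow _ hM₂) _)
  have hclose := close hcop (y := (y₂ : ℤ)) (by
    intro p hp hpa
    have := hcl p hp hpa
    push_cast
    exact this) (by
    intro h2a
    have := h4 h2a
    push_cast
    exact this) hdvd
  have hxs : (y₁ * b ^ t) ^ (4 * q) ≤ (16 * a ^ (6 * M)) ^ 1 := by
    calc (y₁ * b ^ t) ^ (4 * q) = y₁ ^ (4 * q) * b ^ (4 * (q * t)) := by
          rw [mul_pow, ← pow_mul]; congr 2; ring
      _ ≤ 16 * a ^ (5 * M) * a ^ M := Nat.mul_le_mul hs₁ hD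
      _ = (16 * a ^ (6 * M)) ^ 1 := by rw [pow_one, mul_assoc, ← pow_add]; congr 2; ring
  have hys : y₂ ^ (4 * q) ≤ (16 * a ^ (6 * M)) ^ 1 := by
    rw [pow_one]
    refine hs₂.trans (Nat.mul_le_mul_left _ (Nat.pow_le_pow_right haz (by omega)))
  have heq : y₁ * b ^ t = y₂ := by
    refine PB.eq_of_close hclose (by positivity) hy₂ ?_ ?_ hq0
    · exact PB.size_bound (by omega) haz hq0 hbig hxs
    · exact PB.size_bound (by omega) haz hq0 hbig hys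
  rcases Nat.eq_zero_or_pos t with ht0 | ht0
  · subst ht0
    rw [pow_zero, mul_one] at heq
    rw [mul_zero, add_zero] at hn
    refine ⟨?_, hn.symm⟩
    rw [← heq, hn, h₁] at h₂
    have h5 : e₁ * (a : ℤ) ^ m₁ = e₁ * (a : ℤ) ^ m₂ := by linarith
    have he0 : e₁ ≠ 0 := by rcases he₁ with rfl | rfl <;> norm_num
    have h6 := mul_left_cancel₀ he0 h5
    have h7 : a ^ m₁ = a ^ m₂ := by exact_mod_cast h6
    exact Nat.pow_right_injective ha h7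
  · exfalso
    have h1 : b ∣ y₂ := by
      rw [← heq]; exact dvd_mul_of_dvd_right (dvd_pow_self b ht0.ne') _
    have h2 := Nat.eq_one_of_dvd_coprimes hcb h1 dvd_rfl
    omega

end Pool.Agent.Y411.UF
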