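import Mathlib

/-!
The power series `(1 + q² X) ^ (A / q)` with integral coefficients `beta q A k`, and the Padé
approximants of `(1 + q² X) ^ (1 / q)`.
-/

set_option autoImplicit false

namespace Pool.Agent.Y411.UF

open Finset

/-- integrality of the binomial coefficients of `A / q` -/
theorem fac_dvd (q : ℕ) (A : ℤ) (k : ℕ) :
    (k.factorial : ℤ) ∣ (q : ℤ) ^ k * ∏ j ∈ range k, (A - j * q) := by
  have key : k.factorial ∣ ((q : ℤ) ^ k * ∏ j ∈ range k, (A - j * q)).natAbs := by
    rw [Nat.dvd_iff_prime_pow_dvd_dvd]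
    intro p e hp hpe
    by_cases hpq : p ∣ q
    · -- `p` divides `q`
      have h1 : e ≤ k := by
        rcases Nat.eq_zero_or_pos k with hk | hk
        · subst hk
          rw [Nat.factorial_zero] at hpe
          have h2 := Nat.le_of_dvd one_pos hpe
          by_contra hcon
          push Not at hcon
          have : 1 < p ^ e := Nat.one_lt_pow (by omega) hp.one_lt
          omega
        · have h2 : e ≤ (k.factorial).factorization p :=
            (hp.pow_dvd_iff_le_factorization (Nat.factorial_ne_zero k)).1 hpe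
          have h3 := Nat.factorization_factorial_le_div_pred hp k
          have h4 : k / (p - 1) ≤ k := Nat.div_le_self _ _
          omega
      have h2 : p ^ e ∣ q ^ k := (pow_dvd_pow_of_dvd hpq e).trans (pow_dvd_pow q h1)
      rw [Int.natAbs_mul, Int.natAbs_pow, Int.natAbs_natCast]
      exact dvd_mul_of_dvd_left h2 _
    · -- `p` does not divide `q`
      have hcop : IsCoprime (q : ℤ) ((p : ℤ) ^ e) := by
        have : Nat.Coprime q (p ^ e) :=
          Nat.Coprime.pow_right e ((Nat.Prime.coprime_iff_not_dvd hp).2 hpq).symm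
        exact_mod_cast Nat.isCoprime_iff_coprime.2 this
      obtain ⟨u, v, huv⟩ := hcop
      have h1 : ((p : ℤ) ^ e) ∣ ∏ j ∈ range k, (A - j * q) - q ^ k * ∏ j ∈ range k, (A * u - j) := by
        have h2 : (q : ℤ) ^ k * ∏ j ∈ range k, (A * u - j) = ∏ j ∈ range k, (A * u * q - j * q) := by
          have : (q : ℤ) ^ k = ∏ _j ∈ range k, (q : ℤ) := by rw [prod_const, card_range]
          rw [this, ← prod_mul_distrib]
          exact prod_congr rfl fun j _ => by ring
        rw [h2]
        have h3 : ∀ s : Finset ℕ, ((p : ℤ) ^ e) ∣ ∏ j ∈ s, (A - j * q) -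
            ∏ j ∈ s, (A * u * q - j * q) := by
          intro s
          induction s using Finset.induction_on with
          | empty => simp
          | insert a s ha ih =>
            rw [prod_insert ha, prod_insert ha]
            have e1 : (A - a * q) * ∏ j ∈ s, (A - j * q) -
                (A * u * q - a * q) * ∏ j ∈ s, (A * u * q - j * q) =
                (A - a * q) * (∏ j ∈ s, (A - j * q) - ∏ j ∈ s, (A * u * q - j * q)) +
                p ^ e * (A * v * ∏ j ∈ s, (A * u * q - j * q)) := by
              linear_combination (-A * ∏ j ∈ s, (A * u * q - j * q)) * huv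
            rw [e1]
            exact dvd_add (dvd_mul_of_dvd_right ih _) (dvd_mul_right _ _)
        exact h3 _
      have h2 : ((p : ℤ) ^ e) ∣ ∏ j ∈ range k, (A * u - j) := by
        have h3 : (k.factorial : ℤ) ∣ ∏ j ∈ range k, (A * u - j) := by
          have h := Ring.descPochhammer_eq_factorial_smul_choose (A * u) k
          rw [← Polynomial.eval_eq_smeval, descPochhammer_eval_eq_prod_range] at h
          rw [h]
          exact ⟨_, by rw [nsmul_eq_mul]⟩
        exact (by exact_mod_cast hpe : ((p : ℤ) ^ e) ∣ (k.factorial : ℤ)).trans h3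
      have h3 : ((p : ℤ) ^ e) ∣ ∏ j ∈ range k, (A - j * q) := by
        have := dvd_add h1 (dvd_mul_of_dvd_right h2 ((q : ℤ) ^ k))
        rwa [sub_add_cancel] at this
      have h4 := dvd_mul_of_dvd_right h3 ((q : ℤ) ^ k)
      rw [← Int.natAbs_dvd_natAbs, Int.natAbs_pow, Int.natAbs_natCast] at h4
      exact h4
  exact Int.natCast_dvd.2 key

/-- the coefficients of `(1 + q² X) ^ (A / q)` -/
def beta (q : ℕ) (A : ℤ) (k : ℕ) : ℤ :=
  ((q : ℤ) ^ k * ∏ j ∈ range k, (A - j * q)) / (k.factorial : ℤ)

theorem beta_spec (q : ℕ) (A : ℤ) (k : ℕ) :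
    (k.factorial : ℤ) * beta q A k = (q : ℤ) ^ k * ∏ j ∈ range k, (A - j * q) :=
  Int.mul_ediv_cancel' (fac_dvd q A k)

theorem beta_zero {q : ℕ} (A : ℤ) : beta q A 0 = 1 := by simp [beta]

theorem beta_succ (q : ℕ) (A : ℤ) (k : ℕ) :
    ((k : ℤ) + 1) * beta q A (k + 1) = q * (A - k * q) * beta q A k := by
  have h1 := beta_spec q A k
  have h2 := beta_spec q A (k + 1)
  rw [prod_range_succ, pow_succ, Nat.factorial_succ] at h2
  have h3 : (k.factorial : ℤ) ≠ 0 := by exact_mod_cast Nat.factorial_ne_zero k
  apply mul_left_cancel₀ h3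
  push_cast at h2
  linear_combination h2 - (q * (A - k * q)) * h1

open PowerSeries

/-- the series `(1 + q² X) ^ (1 / q)` -/
noncomputable def S (q : ℕ) : PowerSeries ℤ := PowerSeries.mk (beta q 1)

theorem coeff_S (q k : ℕ) : coeff k (S q) = beta q 1 k := by rw [S, coeff_mk]

/-- the differential equation of `S` -/
theorem S_ode (q : ℕ) :
    (1 + C ((q : ℤ) ^ 2) * X) * derivative ℤ (S q) = C (q : ℤ) * S q := by
  ext k
  rw [add_mul, one_mul, map_add, coeff_derivative, mul_assoc, coeff_C_mul, coeff_C_mul, coeff_S,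
    coeff_S]
  have h := beta_succ q 1 k
  rcases k with _ | k
  · rw [coeff_zero_X_mul]
    push_cast at h ⊢
    linear_combination h
  · rw [coeff_succ_X_mul, coeff_derivative, coeff_S]
    push_cast at h ⊢
    linear_combination h

theorem coeff_lin (c : ℤ) (k : ℕ) :
    coeff k ((1 : PowerSeries ℤ) + C c * X) = if k = 0 then 1 else if k = 1 then c else 0 := by
  rw [map_add, coeff_one, coeff_C_mul, coeff_X]
  rcases k with _ | k
  · simp
  · rcases k with _ | k <;> simp

/-- `S ^ q = 1 + q² X` -/
theorem S_pow {q : ℕ} (hq : 0 < q) : S q ^ q = 1 + C ((q : ℤ) ^ 2) * X := by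
  -- the differential equation of the `q`-th power
  have hode : (1 + C ((q : ℤ) ^ 2) * X) * derivative ℤ (S q ^ q) =
      C ((q : ℤ) ^ 2) * S q ^ q := by
    rw [derivative_pow]
    obtain ⟨p, rfl⟩ : ∃ p, q = p + 1 := ⟨q - 1, by omega⟩
    rw [Nat.add_sub_cancel]
    have h := S_ode (p + 1)
    have e : (((p + 1 : ℕ)) : PowerSeries ℤ) = C (((p + 1 : ℕ) : ℤ)) := by simp
    rw [e, map_pow]
    rw [map_pow] at h
    rw [pow_succ (S (p + 1)) p]
    linear_combination (C (((p + 1 : ℕ) : ℤ)) * S (p + 1) ^ p) * h
  set W := S q ^ q with hW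
  have h0 : coeff 0 W = 1 := by
    rw [hW, coeff_zero_eq_constantCoeff, map_pow, ← coeff_zero_eq_constantCoeff, coeff_S, beta_zero,
      one_pow]
  have hrec : ∀ k : ℕ, ((k : ℤ) + 1) * coeff (k + 1) W = (q : ℤ) ^ 2 * (1 - k) * coeff k W := by
    intro k
    have h := congrArg (coeff k) hode
    rw [add_mul, one_mul, map_add, coeff_derivative, mul_assoc, coeff_C_mul, coeff_C_mul] at h
    rcases k with _ | k
    · rw [coeff_zero_X_mul] at h
      push_cast at h ⊢
      linear_combination h
    · rw [coeff_succ_X_mul, coeff_derivative] at h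
      push_cast at h ⊢
      linear_combination h
  have h1 : coeff 1 W = (q : ℤ) ^ 2 := by
    have := hrec 0
    rw [h0] at this
    push_cast at this
    linear_combination this
  have h2 : ∀ k : ℕ, coeff (k + 2) W = 0 := by
    intro k
    induction k with
    | zero =>
      have := hrec 1
      push_cast at this
      have h3 : (2 : ℤ) * coeff 2 W = 0 := by linear_combination this
      rcases mul_eq_zero.1 h3 with h4 | h4
      · norm_num at h4
      · exact h4
    | succ n ih =>
      have := hrec (n + 2)
      rw [ih, mul_zero] at this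
      rcases mul_eq_zero.1 this with h4 | h4
      · exfalso; push_cast at h4; omega
      · exact h4
  ext k
  rw [coeff_lin]
  rcases k with _ | k
  · rw [h0]; simp
  · rcases k with _ | k
    · rw [zero_add, h1]; simp
    · rw [h2]; simp

end Pool.Agent.Y411.UF
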