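import Mathlib
import Pool.Agent.Y411.UF.Ser

/-!
Padé approximants of `(1 + q² X) ^ (1 / q)`.
-/

set_option autoImplicit false

namespace Pool.Agent.Y411.UF

open Finset PowerSeries

/-- coefficients of the Padé approximants: `ε = 1` for the numerator, `ε = -1` for the
denominator -/
def PC (q r : ℕ) (ε : ℤ) (k : ℕ) : ℤ := beta q (r * q + ε) k * (Nat.choose (2 * r - k) r : ℤ)

theorem PC_eq_zero {q r k : ℕ} (ε : ℤ) (hr : 1 ≤ r) (hk : r < k) : PC q r ε k = 0 := by
  rw [PC, Nat.choose_eq_zero_of_lt (by omega)]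
  simp

theorem PC_zero (q r : ℕ) (ε : ℤ) : PC q r ε 0 = (Nat.choose (2 * r) r : ℤ) := by
  rw [PC, beta_zero, one_mul, Nat.sub_zero]

theorem PC_rec {q r : ℕ} (hr : 1 ≤ r) (ε : ℤ) (k : ℕ) :
    ((k : ℤ) + 1) * (2 * r - k) * PC q r ε (k + 1) =
      q * (r - k) * (q * (r - k) + ε) * PC q r ε k := by
  have hb := beta_succ q (r * q + ε) k
  have hch : (2 * (r : ℤ) - k) * (Nat.choose (2 * r - (k + 1)) r : ℤ) =
      (r - k) * (Nat.choose (2 * r - k) r : ℤ) := by
    rcases Nat.lt_or_ge k (2 * r) with h | h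
    · obtain ⟨n, hn⟩ : ∃ n, 2 * r - k = n + 1 := ⟨2 * r - k - 1, by omega⟩
      have h1 : 2 * r - (k + 1) = n := by omega
      rw [h1, hn]
      have h2 := Nat.choose_mul_succ_eq n r
      have h3 : (2 * (r : ℤ) - k) = n + 1 := by omega
      rw [h3]
      rcases Nat.lt_or_ge (n + 1) r with h4 | h4
      · rw [Nat.choose_eq_zero_of_lt h4, Nat.choose_eq_zero_of_lt (by omega : n < r)]; simp
      · have h5 : ((n.choose r * (n + 1) : ℕ) : ℤ) = (((n + 1).choose r * (n + 1 - r) : ℕ) : ℤ) := by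
          rw [h2]
        push_cast [Nat.cast_sub h4] at h5
        have h6 : ((r : ℤ) - k) = n + 1 - r := by omega
        rw [h6]
        linear_combination h5
    · have h1 : Nat.choose (2 * r - k) r = 0 := Nat.choose_eq_zero_of_lt (by omega)
      have h2 : Nat.choose (2 * r - (k + 1)) r = 0 := Nat.choose_eq_zero_of_lt (by omega)
      rw [h1, h2]; simp
  rw [PC, PC]
  linear_combination (beta q (r * q + ε) (k + 1) * ((k : ℤ) + 1)) * hch +
    ((r : ℤ) - k) * (Nat.choose (2 * r - k) r : ℤ) * hb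

/-- the hypergeometric operator -/
noncomputable def L (q r : ℕ) (ε : ℤ) (u : PowerSeries ℤ) : PowerSeries ℤ :=
  X * derivative ℤ (derivative ℤ u) +
    C (q : ℤ) ^ 2 * (X * (X * derivative ℤ (derivative ℤ u))) -
    (2 * C (r : ℤ) * derivative ℤ u +
      C (q : ℤ) * (2 * C (q : ℤ) * C (r : ℤ) + C ε - C (q : ℤ)) * (X * derivative ℤ u)) +
    C (q : ℤ) * (C (q : ℤ) * C (r : ℤ) ^ 2 + C ε * C (r : ℤ)) * u

theorem coeff_XD (u : PowerSeries ℤ) (k : ℕ) :
    coeff k (X * derivative ℤ u) = k * coeff k u := by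
  rcases k with _ | k
  · rw [coeff_zero_X_mul]; simp
  · rw [coeff_succ_X_mul, coeff_derivative]; push_cast; ring

theorem coeff_XDD (u : PowerSeries ℤ) (k : ℕ) :
    coeff k (X * derivative ℤ (derivative ℤ u)) = k * (k + 1) * coeff (k + 1) u := by
  rw [coeff_XD, coeff_derivative]; ring

theorem coeff_XXDD (u : PowerSeries ℤ) (k : ℕ) :
    coeff k (X * (X * derivative ℤ (derivative ℤ u))) = k * (k - 1) * coeff k u := by
  rcases k with _ | k
  · rw [coeff_zero_X_mul]; simp
  · rw [coeff_succ_X_mul, coeff_XDD]; push_cast; ring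

theorem coeff_L (q r : ℕ) (ε : ℤ) (u : PowerSeries ℤ) (k : ℕ) :
    coeff k (L q r ε u) = q * (r - k) * (q * (r - k) + ε) * coeff k u -
      (k + 1) * (2 * r - k) * coeff (k + 1) u := by
  have e1 : C (q : ℤ) ^ 2 * (X * (X * derivative ℤ (derivative ℤ u))) =
      C ((q : ℤ) ^ 2) * (X * (X * derivative ℤ (derivative ℤ u))) := by rw [map_pow]
  have e2 : (2 * C (r : ℤ) * derivative ℤ u : PowerSeries ℤ) =
      C (2 * (r : ℤ)) * derivative ℤ u := by rw [map_mul]; simp
  have e3 : C (q : ℤ) * (2 * C (q : ℤ) * C (r : ℤ) + C ε - C (q : ℤ)) * (X * derivative ℤ u) =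
      C ((q : ℤ) * (2 * q * r + ε - q)) * (X * derivative ℤ u) := by
    rw [map_mul, map_sub, map_add, map_mul, map_mul]; simp
  have e4 : C (q : ℤ) * (C (q : ℤ) * C (r : ℤ) ^ 2 + C ε * C (r : ℤ)) * u =
      C ((q : ℤ) * (q * r ^ 2 + ε * r)) * u := by
    rw [map_mul, map_add, map_mul, map_mul, map_pow]
  rw [L, e1, e2, e3, e4, map_add, map_sub, map_add, map_add, coeff_C_mul, coeff_C_mul, coeff_C_mul,
    coeff_C_mul, coeff_XDD, coeff_XXDD, coeff_XD, coeff_derivative]
  ring

/-- the numerator and the denominator as power series -/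
noncomputable def PS (q r : ℕ) (ε : ℤ) : PowerSeries ℤ := PowerSeries.mk (PC q r ε)

theorem coeff_PS (q r : ℕ) (ε : ℤ) (k : ℕ) : coeff k (PS q r ε) = PC q r ε k := by
  rw [PS, coeff_mk]

theorem L_PS {q r : ℕ} (hr : 1 ≤ r) (ε : ℤ) : L q r ε (PS q r ε) = 0 := by
  ext k
  rw [coeff_L, coeff_PS, coeff_PS, map_zero]
  have := PC_rec (q := q) hr ε k
  linear_combination -this

/-- multiplication by `S` -/
theorem L_S_mul (q r : ℕ) (v : PowerSeries ℤ) :
    (1 + C (q : ℤ) ^ 2 * X) * L q r 1 (S q * v) = S q * ((1 + C (q : ℤ) ^ 2 * X) * L q r (-1) v) := by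
  have h1 : (1 + C (q : ℤ) ^ 2 * X) * derivative ℤ (S q) = C (q : ℤ) * S q := by
    have := S_ode q
    rwa [map_pow] at this
  have h2 : (1 + C (q : ℤ) ^ 2 * X) * derivative ℤ (derivative ℤ (S q)) =
      (C (q : ℤ) - C (q : ℤ) ^ 2) * derivative ℤ (S q) := by
    have h3 := congrArg (derivative ℤ) h1
    rw [Derivation.leibniz, Derivation.leibniz] at h3
    have h4 : derivative ℤ (1 + C (q : ℤ) ^ 2 * X : PowerSeries ℤ) = C (q : ℤ) ^ 2 := by
      rw [← map_pow]
      ext k
      rw [coeff_derivative, coeff_lin, coeff_C]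
      rcases k with _ | k <;> simp
    have h5 : derivative ℤ (C (q : ℤ) : PowerSeries ℤ) = 0 := by
      ext k
      rw [coeff_derivative, coeff_C]
      simp
    rw [h4, h5] at h3
    simp only [smul_eq_mul] at h3
    linear_combination h3
  have hd1 : derivative ℤ (S q * v) = S q * derivative ℤ v + v * derivative ℤ (S q) := by
    rw [Derivation.leibniz]; simp only [smul_eq_mul]
  have hd2 : derivative ℤ (derivative ℤ (S q * v)) = S q * derivative ℤ (derivative ℤ v) +
      2 * (derivative ℤ v * derivative ℤ (S q)) + v * derivative ℤ (derivative ℤ (S q)) := by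
    rw [hd1, map_add, Derivation.leibniz, Derivation.leibniz]; simp only [smul_eq_mul]; ring
  rw [L, L, hd2, hd1]
  set s0 := S q
  set s1 := derivative ℤ s0
  set s2 := derivative ℤ s1
  set v1 := derivative ℤ v
  set v2 := derivative ℤ v1
  set κ := (C (q : ℤ) : PowerSeries ℤ)
  set ρ := (C (r : ℤ) : PowerSeries ℤ)
  have hone : (C (1 : ℤ) : PowerSeries ℤ) = 1 := map_one _
  have hneg : (C (-1 : ℤ) : PowerSeries ℤ) = -1 := by rw [map_neg, map_one]
  rw [hone, hneg]
  linear_combination (X * (1 + κ ^ 2 * X) * v) * h2 +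
    (X * (κ - κ ^ 2) * v + 2 * X * (1 + κ ^ 2 * X) * v1 -
      (2 * ρ + κ * (2 * κ * ρ + 1 - κ) * X) * v) * h1

/-- **Padé approximation** -/
theorem pade {q r : ℕ} (hr : 1 ≤ r) {k : ℕ} (hk : k ≤ 2 * r) :
    coeff k (S q * PS q r (-1)) = PC q r 1 k := by
  have hL : L q r 1 (S q * PS q r (-1)) = 0 := by
    have h := L_S_mul q r (PS q r (-1))
    rw [L_PS hr, mul_zero, mul_zero] at h
    rcases mul_eq_zero.1 h with h1 | h1
    · exfalso
      have h2 := congrArg (coeff 0) h1
      rw [← map_pow, coeff_lin] at h2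
      simp at h2
    · exact h1
  have hrec : ∀ k : ℕ, ((k : ℤ) + 1) * (2 * r - k) * coeff (k + 1) (S q * PS q r (-1)) =
      q * (r - k) * (q * (r - k) + 1) * coeff k (S q * PS q r (-1)) := by
    intro k
    have h := congrArg (coeff k) hL
    rw [coeff_L, map_zero] at h
    linear_combination -h
  induction k with
  | zero =>
    rw [PC_zero, coeff_zero_eq_constantCoeff, map_mul, ← coeff_zero_eq_constantCoeff, coeff_S,
      beta_zero, one_mul, coeff_PS, PC_zero]
  | succ n ih =>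
    have h1 := ih (by omega)
    have h2 := hrec n
    have h3 := PC_rec (q := q) hr 1 n
    rw [h1] at h2
    have h4 : ((n : ℤ) + 1) * (2 * r - n) ≠ 0 := by
      apply mul_ne_zero <;> omega
    exact mul_left_cancel₀ h4 (h2.trans h3.symm)

end Pool.Agent.Y411.UF
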