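import Mathlib
import Pool.Agent.Y411.UF.Pade

/-!
The Padé approximants as polynomials: divisibility, non-vanishing and size.
-/

set_option autoImplicit false

namespace Pool.Agent.Y411.UF

open Finset Polynomial

/-- numerator and denominator as polynomials -/
noncomputable def NP (q r : ℕ) (ε : ℤ) : ℤ[X] := ∑ k ∈ range (r + 1), C (PC q r ε k) * X ^ k

theorem coeff_NP {q r : ℕ} (hr : 1 ≤ r) (ε : ℤ) (k : ℕ) : (NP q r ε).coeff k = PC q r ε k := by
  rw [NP, finsetSum_coeff]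
  simp only [coeff_C_mul, coeff_X_pow]
  rcases Nat.lt_or_ge r k with h | h
  · rw [PC_eq_zero ε hr h]
    apply sum_eq_zero
    intro j hj
    rw [mem_range] at hj
    rw [if_neg (by omega), mul_zero]
  · rw [sum_eq_single k]
    · simp
    · intro j _ hj
      rw [if_neg (fun h => hj h.symm), mul_zero]
    · intro h1
      exact absurd (mem_range.2 (by omega)) h1

theorem natDegree_NP (q r : ℕ) (ε : ℤ) : (NP q r ε).natDegree ≤ r := by
  apply natDegree_sum_le_of_forall_le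
  intro k hk
  rw [mem_range] at hk
  exact (natDegree_C_mul_X_pow_le _ _).trans (by omega)

theorem NP_coe {q r : ℕ} (hr : 1 ≤ r) (ε : ℤ) : ((NP q r ε : ℤ[X]) : PowerSeries ℤ) = PS q r ε := by
  ext k
  rw [Polynomial.coeff_coe, coeff_NP hr, coeff_PS]

/-- the truncated series -/
noncomputable def ST (q T : ℕ) : ℤ[X] := PowerSeries.trunc T (S q)

theorem coeff_ST {q T k : ℕ} (hk : k < T) : (ST q T).coeff k = beta q 1 k := by
  rw [ST, PowerSeries.coeff_trunc, if_pos hk, coeff_S]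

theorem ST_pow {q : ℕ} (hq : 0 < q) (T : ℕ) :
    (X : ℤ[X]) ^ T ∣ ST q T ^ q - (1 + C ((q : ℤ) ^ 2) * X) := by
  rw [X_pow_dvd_iff]
  intro d hd
  rw [coeff_sub, sub_eq_zero]
  have h1 := congrArg (fun p : ℤ[X] => p.coeff d) (PowerSeries.trunc_trunc_pow (S q) T q)
  simp only [PowerSeries.coeff_trunc, if_pos hd] at h1
  rw [S_pow hq, coeff_lin] at h1
  rw [← Polynomial.coeff_coe, Polynomial.coe_pow]
  rw [ST]
  rw [h1, coeff_add, coeff_one, coeff_C_mul, coeff_X]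
  rcases d with _ | d
  · simp
  · rcases d with _ | d <;> simp

theorem ST_NP {q r : ℕ} (hr : 1 ≤ r) :
    (X : ℤ[X]) ^ (2 * r + 1) ∣ NP q r 1 - ST q (2 * r + 1) * NP q r (-1) := by
  rw [X_pow_dvd_iff]
  intro d hd
  rw [coeff_sub, sub_eq_zero, coeff_NP hr, ← pade hr (by omega : d ≤ 2 * r), Polynomial.coeff_mul,
    PowerSeries.coeff_mul]
  apply sum_congr rfl
  rintro ⟨i, j⟩ hij
  rw [HasAntidiagonal.mem_antidiagonal] at hij
  simp only at hij ⊢
  rw [coeff_ST (by omega), coeff_S, coeff_NP hr, coeff_PS]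

theorem ST_one {q T : ℕ} (hT : 1 ≤ T) (x : ℤ) : x ∣ (ST q T).eval x - 1 := by
  have h := sub_dvd_eval_sub x 0 (ST q T)
  rw [sub_zero, ← coeff_zero_eq_eval_zero, coeff_ST (by omega), beta_zero] at h
  exact h

/-- the homogeneous forms -/
def H (q r : ℕ) (ε A B : ℤ) : ℤ := ∑ k ∈ range (r + 1), PC q r ε k * (A ^ k * B ^ (r - k))

theorem H_mod {q r : ℕ} {ε A B x D : ℤ} (h : D ∣ B * x - A) :
    D ∣ B ^ r * (NP q r ε).eval x - H q r ε A B := by
  rw [H, NP, eval_finsetSum, mul_sum, ← sum_sub_distrib]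
  apply dvd_sum
  intro k hk
  rw [mem_range] at hk
  have e1 : B ^ r = B ^ k * B ^ (r - k) := by rw [← pow_add]; congr 1; omega
  have e : B ^ r * eval x (C (PC q r ε k) * X ^ k) - PC q r ε k * (A ^ k * B ^ (r - k)) =
      ((B * x) ^ k - A ^ k) * (PC q r ε k * B ^ (r - k)) := by
    rw [eval_mul, eval_C, eval_pow, eval_X, e1, mul_pow]; ring
  rw [e]
  exact dvd_mul_of_dvd_left (h.trans (sub_dvd_pow_sub_pow _ _ _)) _

/-! ### size -/

theorem beta_bound {q r k : ℕ} (hq : 2 ≤ q) {ε : ℤ} (hε : ε = 1 ∨ ε = -1) (hk : k ≤ r) :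
    0 < beta q (r * q + ε) k ∧ beta q (r * q + ε) k ≤ (q : ℤ) ^ (2 * k) * 2 ^ (r + 1) := by
  have hs := beta_spec q (r * q + ε) k
  have hf : (0 : ℤ) < k.factorial := by exact_mod_cast Nat.factorial_pos k
  have hq0 : (0 : ℤ) < q := by omega
  have hfac : ∀ j ∈ range k, 0 < ((r : ℤ) * q + ε - j * q) ∧
      ((r : ℤ) * q + ε - j * q) ≤ q * (r + 1 - j) := by
    intro j hj
    rw [mem_range] at hj
    have h1 : (1 : ℤ) ≤ r - j := by omega
    have h2 : (q : ℤ) ≤ (r - j) * q := by nlinarith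
    have h3 : (2 : ℤ) ≤ q := by omega
    rcases hε with rfl | rfl <;> constructor <;> nlinarith
  constructor
  · have h1 : 0 < (q : ℤ) ^ k * ∏ j ∈ range k, ((r : ℤ) * q + ε - j * q) :=
      mul_pos (by positivity) (prod_pos fun j hj => (hfac j hj).1)
    rw [← hs] at h1
    exact (mul_pos_iff_of_pos_left hf).1 h1
  · have h1 : ∏ j ∈ range k, ((r : ℤ) * q + ε - j * q) ≤ ∏ j ∈ range k, ((q : ℤ) * (r + 1 - j)) :=
      prod_le_prod (fun j hj => (hfac j hj).1.le) fun j hj => (hfac j hj).2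
    have h2 : ∏ j ∈ range k, ((q : ℤ) * (r + 1 - j)) = (q : ℤ) ^ k * ((r + 1).descFactorial k : ℤ) := by
      rw [prod_mul_distrib, prod_const, card_range, Nat.descFactorial_eq_prod_range]
      push_cast
      congr 1
      apply prod_congr rfl
      intro j hj
      rw [mem_range] at hj
      rw [Nat.cast_sub (by omega)]; push_cast; ring
    have h3 : ((r + 1).descFactorial k : ℤ) ≤ k.factorial * 2 ^ (r + 1) := by
      rw [Nat.descFactorial_eq_factorial_mul_choose]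
      have : Nat.choose (r + 1) k ≤ 2 ^ (r + 1) := Nat.choose_le_two_pow _ _
      exact_mod_cast Nat.mul_le_mul_left _ this
    have h4 : (k.factorial : ℤ) * beta q (r * q + ε) k ≤
        k.factorial * ((q : ℤ) ^ (2 * k) * 2 ^ (r + 1)) := by
      rw [hs]
      calc (q : ℤ) ^ k * ∏ j ∈ range k, ((r : ℤ) * q + ε - j * q) ≤
            (q : ℤ) ^ k * ((q : ℤ) ^ k * (k.factorial * 2 ^ (r + 1))) := by
            apply mul_le_mul_of_nonneg_left _ (by positivity)
            rw [h2] at h1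
            exact h1.trans (mul_le_mul_of_nonneg_left h3 (by positivity))
        _ = _ := by rw [two_mul, pow_add]; ring
    exact le_of_mul_le_mul_left h4 hf

theorem H_bound {q r : ℕ} (hq : 2 ≤ q) {ε : ℤ} (hε : ε = 1 ∨ ε = -1) {A B U : ℤ} (hA : |A| ≤ U)
    (hB0 : 0 ≤ B) (hB : B ≤ (q : ℤ) ^ 2 * U) :
    |H q r ε A B| ≤ 2 * 16 ^ r * (q : ℤ) ^ (2 * r) * U ^ r := by
  have hU : 0 ≤ U := (abs_nonneg A).trans hA
  rw [H]
  refine (abs_sum_le_sum_abs _ _).trans ?_
  have h1 : ∀ k ∈ range (r + 1), |PC q r ε k * (A ^ k * B ^ (r - k))| ≤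
      2 ^ (r + 1) * 4 ^ r * (q : ℤ) ^ (2 * r) * U ^ r := by
    intro k hk
    rw [mem_range] at hk
    obtain ⟨b1, b2⟩ := beta_bound hq hε (by omega : k ≤ r)
    have h2 : |PC q r ε k| ≤ (q : ℤ) ^ (2 * k) * 2 ^ (r + 1) * 4 ^ r := by
      rw [PC, abs_mul, abs_of_pos b1, abs_of_nonneg (by positivity)]
      have h3 : ((Nat.choose (2 * r - k) r : ℕ) : ℤ) ≤ 4 ^ r := by
        have h4 : Nat.choose (2 * r - k) r ≤ 4 ^ r := by
          calc Nat.choose (2 * r - k) r ≤ 2 ^ (2 * r - k) := Nat.choose_le_two_pow _ _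
            _ ≤ 2 ^ (2 * r) := Nat.pow_le_pow_right (by norm_num) (by omega)
            _ = 4 ^ r := by rw [pow_mul]; norm_num
        exact_mod_cast h4
      exact mul_le_mul b2 h3 (by positivity) (by positivity)
    rw [abs_mul, abs_mul, abs_pow, abs_pow, abs_of_nonneg hB0]
    have h5 : |A| ^ k * B ^ (r - k) ≤ U ^ k * ((q : ℤ) ^ 2 * U) ^ (r - k) :=
      mul_le_mul (pow_le_pow_left₀ (abs_nonneg _) hA _) (pow_le_pow_left₀ hB0 hB _) (by positivity)
        (by positivity)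
    calc |PC q r ε k| * (|A| ^ k * B ^ (r - k)) ≤
          ((q : ℤ) ^ (2 * k) * 2 ^ (r + 1) * 4 ^ r) * (U ^ k * ((q : ℤ) ^ 2 * U) ^ (r - k)) :=
          mul_le_mul h2 h5 (by positivity) (by positivity)
      _ = 2 ^ (r + 1) * 4 ^ r * ((q : ℤ) ^ (2 * k) * ((q : ℤ) ^ 2) ^ (r - k)) *
          (U ^ k * U ^ (r - k)) := by rw [mul_pow]; ring
      _ = 2 ^ (r + 1) * 4 ^ r * (q : ℤ) ^ (2 * r) * U ^ r := by
          rw [← pow_mul, ← pow_add, ← pow_add]
          congr 3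
          · congr 1; omega
          · omega
  refine (sum_le_sum h1).trans ?_
  rw [sum_const, card_range, nsmul_eq_mul]
  have h2 : ((r + 1 : ℕ) : ℤ) ≤ 2 ^ r := by
    have : r + 1 ≤ 2 ^ r := Nat.lt_two_pow_self
    exact_mod_cast this
  calc ((r + 1 : ℕ) : ℤ) * (2 ^ (r + 1) * 4 ^ r * (q : ℤ) ^ (2 * r) * U ^ r) ≤
        2 ^ r * (2 ^ (r + 1) * 4 ^ r * (q : ℤ) ^ (2 * r) * U ^ r) :=
        mul_le_mul_of_nonneg_right h2 (by positivity)
    _ = 2 * (2 ^ r * 2 ^ r * 4 ^ r) * (q : ℤ) ^ (2 * r) * U ^ r := by rw [pow_succ]; ring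
    _ = 2 * 16 ^ r * (q : ℤ) ^ (2 * r) * U ^ r := by
        rw [← mul_pow, ← mul_pow]; norm_num

/-! ### non-vanishing -/

theorem lead_succ (q r : ℕ) (ε : ℤ) :
    ((r : ℤ) + 1) * beta q (((r + 1 : ℕ) : ℤ) * q + ε) (r + 1) =
      q * ((r + 1) * q + ε) * beta q (r * q + ε) r := by
  have h1 := beta_spec q (((r + 1 : ℕ) : ℤ) * q + ε) (r + 1)
  have h2 := beta_spec q (r * q + ε) r
  rw [prod_range_succ', Nat.factorial_succ, pow_succ] at h1
  have h3 : ∏ k ∈ range r, (((r + 1 : ℕ) : ℤ) * q + ε - ((k + 1 : ℕ) : ℤ) * q) =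
      ∏ k ∈ range r, ((r : ℤ) * q + ε - k * q) :=
    prod_congr rfl fun k _ => by push_cast; ring
  rw [h3] at h1
  have hf : (r.factorial : ℤ) ≠ 0 := by exact_mod_cast Nat.factorial_ne_zero r
  apply mul_left_cancel₀ hf
  have hc : (((r + 1 : ℕ)) : ℤ) = (r : ℤ) + 1 := by push_cast; ring
  rw [hc] at h1 ⊢
  push_cast at h1
  linear_combination h1 - (q * ((r + 1) * q + ε)) * h2

theorem PC_lead (q r : ℕ) (ε : ℤ) : PC q r ε r = beta q (r * q + ε) r := by
  rw [PC]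
  have : 2 * r - r = r := by omega
  rw [this, Nat.choose_self]; simp

theorem kappa_ne {q r : ℕ} (hq : 2 ≤ q) :
    PC q r 1 r * PC q (r + 1) (-1) (r + 1) - PC q (r + 1) 1 (r + 1) * PC q r (-1) r ≠ 0 := by
  rw [PC_lead, PC_lead, PC_lead, PC_lead]
  have h1 := lead_succ q r 1
  have h2 := lead_succ q r (-1)
  have b1 := (beta_bound hq (Or.inl rfl) (le_refl r)).1
  have b2 := (beta_bound hq (Or.inr rfl) (le_refl r)).1
  intro h
  have h3 : ((r : ℤ) + 1) * (beta q (r * q + 1) r * beta q (((r + 1 : ℕ) : ℤ) * q + (-1)) (r + 1) -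
      beta q (((r + 1 : ℕ) : ℤ) * q + 1) (r + 1) * beta q (r * q + (-1)) r) =
      -2 * q * (beta q (r * q + 1) r * beta q (r * q + (-1)) r) := by
    linear_combination (beta q (r * q + 1) r) * h2 - (beta q (r * q + (-1)) r) * h1
  rw [h, mul_zero] at h3
  have h4 : 0 < (q : ℤ) * (beta q (r * q + 1) r * beta q (r * q + (-1)) r) := by positivity
  linarith

/-- the determinant of two consecutive approximants -/
theorem det_NP {q r : ℕ} (hr : 1 ≤ r) :
    NP q r 1 * NP q (r + 1) (-1) - NP q (r + 1) 1 * NP q r (-1) =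
      C (PC q r 1 r * PC q (r + 1) (-1) (r + 1) - PC q (r + 1) 1 (r + 1) * PC q r (-1) r) *
        X ^ (2 * r + 1) := by
  have hdvd : (PowerSeries.X : PowerSeries ℤ) ^ (2 * r + 1) ∣
      PS q r 1 * PS q (r + 1) (-1) - PS q (r + 1) 1 * PS q r (-1) := by
    have h1 : (PowerSeries.X : PowerSeries ℤ) ^ (2 * r + 1) ∣ PS q r 1 - S q * PS q r (-1) := by
      rw [PowerSeries.X_pow_dvd_iff]
      intro m hm
      rw [map_sub, pade hr (by omega), coeff_PS, sub_self]
    have h2 : (PowerSeries.X : PowerSeries ℤ) ^ (2 * r + 1) ∣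
        PS q (r + 1) 1 - S q * PS q (r + 1) (-1) := by
      rw [PowerSeries.X_pow_dvd_iff]
      intro m hm
      rw [map_sub, pade (by omega) (by omega), coeff_PS, sub_self]
    have e : PS q r 1 * PS q (r + 1) (-1) - PS q (r + 1) 1 * PS q r (-1) =
        (PS q r 1 - S q * PS q r (-1)) * PS q (r + 1) (-1) -
          (PS q (r + 1) 1 - S q * PS q (r + 1) (-1)) * PS q r (-1) := by ring
    rw [e]
    exact dvd_sub (dvd_mul_of_dvd_left h1 _) (dvd_mul_of_dvd_left h2 _)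
  ext k
  rw [coeff_C_mul, coeff_X_pow]
  rcases lt_trichotomy k (2 * r + 1) with h | h | h
  · rw [if_neg (by omega), mul_zero]
    have h1 := (PowerSeries.X_pow_dvd_iff.1 hdvd) k h
    rw [← NP_coe hr, ← NP_coe hr, ← NP_coe (by omega : 1 ≤ r + 1), ← NP_coe (by omega : 1 ≤ r + 1),
      ← Polynomial.coe_mul, ← Polynomial.coe_mul, ← Polynomial.coe_sub, Polynomial.coeff_coe] at h1
    exact h1
  · rw [if_pos h, mul_one, coeff_sub, h]
    have e1 : 2 * r + 1 = r + (r + 1) := by ring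
    have e2 : 2 * r + 1 = (r + 1) + r := by ring
    have h1 := coeff_mul_add_eq_of_natDegree_le (natDegree_NP q r 1) (natDegree_NP q (r + 1) (-1))
    have h2 := coeff_mul_add_eq_of_natDegree_le (natDegree_NP q (r + 1) 1) (natDegree_NP q r (-1))
    rw [← e1] at h1
    rw [← e2] at h2
    rw [h1, h2, coeff_NP hr, coeff_NP hr, coeff_NP (by omega), coeff_NP (by omega)]
  · rw [if_neg (by omega), mul_zero]
    apply coeff_eq_zero_of_natDegree_lt
    refine lt_of_le_of_lt (natDegree_sub_le _ _) (max_lt ?_ ?_)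
    · refine lt_of_le_of_lt natDegree_mul_le ?_
      have := natDegree_NP q r 1
      have := natDegree_NP q (r + 1) (-1)
      omega
    · refine lt_of_le_of_lt natDegree_mul_le ?_
      have := natDegree_NP q (r + 1) 1
      have := natDegree_NP q r (-1)
      omega

theorem H_eval {q r : ℕ} (ε A B : ℤ) (hB : B ≠ 0) :
    (H q r ε A B : ℚ) = (B : ℚ) ^ r * ((NP q r ε).map (Int.castRingHom ℚ)).eval ((A : ℚ) / B) := by
  have hB' : (B : ℚ) ≠ 0 := by exact_mod_cast hB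
  rw [H, NP, Polynomial.map_sum, eval_finsetSum, mul_sum]
  push_cast
  apply sum_congr rfl
  intro k hk
  rw [mem_range] at hk
  rw [Polynomial.map_mul, map_C, Polynomial.map_pow, map_X, eval_mul, eval_C, eval_pow, eval_X,
    eq_intCast, div_pow]
  have e1 : (B : ℚ) ^ r = (B : ℚ) ^ k * (B : ℚ) ^ (r - k) := by rw [← pow_add]; congr 1; omega
  rw [e1]
  field_simp

/-- one of two consecutive approximants does not vanish at a given point -/
theorem nonvanish {q r : ℕ} (hq : 2 ≤ q) (hr : 1 ≤ r) {A B : ℤ} (hA : A ≠ 0) (hB : B ≠ 0)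
    {z₁ z₂ : ℤ} (h1 : z₁ ≠ 0) (h2 : z₂ ≠ 0)
    (e1 : H q r 1 A B * z₂ = H q r (-1) A B * z₁)
    (e2 : H q (r + 1) 1 A B * z₂ = H q (r + 1) (-1) A B * z₁) : False := by
  have hd : H q r 1 A B * H q (r + 1) (-1) A B - H q (r + 1) 1 A B * H q r (-1) A B = 0 := by
    have h3 : z₂ * z₁ * (H q r 1 A B * H q (r + 1) (-1) A B - H q (r + 1) 1 A B * H q r (-1) A B)
        = 0 := by
      linear_combination (H q (r + 1) (-1) A B * z₁) * e1 - (H q r (-1) A B * z₁) * e2
    rcases mul_eq_zero.1 h3 with h4 | h4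
    · exact absurd h4 (mul_ne_zero h2 h1)
    · exact h4
  have hB' : (B : ℚ) ≠ 0 := by exact_mod_cast hB
  have hA' : (A : ℚ) ≠ 0 := by exact_mod_cast hA
  have hdq : (H q r 1 A B : ℚ) * (H q (r + 1) (-1) A B : ℚ) -
      (H q (r + 1) 1 A B : ℚ) * (H q r (-1) A B : ℚ) = 0 := by exact_mod_cast hd
  rw [H_eval _ _ _ hB, H_eval _ _ _ hB, H_eval _ _ _ hB, H_eval _ _ _ hB] at hdq
  have h5 := congrArg (fun p : ℤ[X] => (p.map (Int.castRingHom ℚ)).eval ((A : ℚ) / B))
    (det_NP (q := q) hr)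
  simp only [Polynomial.map_sub, Polynomial.map_mul, Polynomial.map_pow, map_X, Polynomial.map_C,
    eval_sub, eval_mul, eval_pow, eval_X, eval_C, Int.coe_castRingHom] at h5
  have h6 : (B : ℚ) ^ (2 * r + 1) * (((PC q r 1 r * PC q (r + 1) (-1) (r + 1) -
      PC q (r + 1) 1 (r + 1) * PC q r (-1) r : ℤ) : ℚ) * ((A : ℚ) / B) ^ (2 * r + 1)) = 0 := by
    rw [← h5]
    linear_combination hdq
  have h7 := kappa_ne (r := r) hq
  have h8 : ((PC q r 1 r * PC q (r + 1) (-1) (r + 1) -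
      PC q (r + 1) 1 (r + 1) * PC q r (-1) r : ℤ) : ℚ) ≠ 0 := by exact_mod_cast h7
  have h9 : ((A : ℚ) / B) ^ (2 * r + 1) ≠ 0 := pow_ne_zero _ (div_ne_zero hA' hB')
  exact (mul_ne_zero (pow_ne_zero _ hB') (mul_ne_zero h8 h9)) h6

end Pool.Agent.Y411.UF
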