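import Mathlib
import Pool.Agent.Y411.UF.Poly
import Pool.Agent.Y411.UF.Lte

/-!
Divisibility of the auxiliary integer by a high power of `a` (the Thue–Siegel step in the topology
given by `a`).
-/

set_option autoImplicit false

namespace Pool.Agent.Y411.UF

open Finset Polynomial

/-- one prime factor -/
theorem div_prime {p v s N q r m₁ m₂ E : ℕ} {a₁ q' : ℤ} {z₁ z₂ W B₀ e : ℤ} (hp : p.Prime)
    (hq0 : 0 < q) (hr : 1 ≤ r) (he : e = 1 ∨ e = -1) (hqs : (q : ℤ) = (p : ℤ) ^ s * q')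
    (hq' : IsCoprime q' (p : ℤ)) (hB : IsCoprime B₀ (p : ℤ)) (hz₁ : ¬ (p : ℤ) ∣ z₁)
    (hsm : 2 * s + 2 ≤ v * m₁)
    (h₁ : z₁ ^ q * B₀ = W * (B₀ + e * ((p : ℤ) ^ v * a₁) ^ m₁))
    (h₂ : (p : ℤ) ^ (v * m₂) ∣ z₂ ^ q - W)
    (hcl : (p : ℤ) ∣ z₁ - z₂) (h4 : p = 2 → (4 : ℤ) ∣ z₁ - z₂)
    (hE₁ : E ≤ (2 * r + 1) * m₁) (hE₂ : E ≤ m₂) (hN : N + 2 * (2 * r + 1) * s = v * E) :
    (p : ℤ) ^ N ∣ q * (H q r 1 (e * ((p : ℤ) ^ v * a₁) ^ m₁) ((q : ℤ) ^ 2 * B₀) * z₂ -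
      H q r (-1) (e * ((p : ℤ) ^ v * a₁) ^ m₁) ((q : ℤ) ^ 2 * B₀) * z₁) := by
  set T := 2 * r + 1 with hT
  -- the inverse of `q'² B₀`
  have hcopu : IsCoprime (q' ^ 2 * B₀) ((p : ℤ) ^ N) := (hq'.pow_left.mul_left hB).pow_right
  obtain ⟨u, w, huw⟩ := hcopu
  obtain ⟨d, hd⟩ : ∃ d, v * m₁ = 2 * s + d := ⟨v * m₁ - 2 * s, by omega⟩
  set x : ℤ := e * ((p : ℤ) ^ d * a₁ ^ m₁) * u with hx
  have hA : ((p : ℤ) ^ v * a₁) ^ m₁ = (p : ℤ) ^ (2 * s) * ((p : ℤ) ^ d * a₁ ^ m₁) := by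
    rw [mul_pow, ← pow_mul, hd, pow_add]; ring
  have hBx : (p : ℤ) ^ N ∣ (q : ℤ) ^ 2 * B₀ * x - e * ((p : ℤ) ^ v * a₁) ^ m₁ := by
    have e1 : (q : ℤ) ^ 2 * B₀ * x - e * ((p : ℤ) ^ v * a₁) ^ m₁ =
        (p : ℤ) ^ N * (-(e * ((p : ℤ) ^ (2 * s) * ((p : ℤ) ^ d * a₁ ^ m₁)) * w)) := by
      rw [hA, hx, hqs, mul_pow, ← pow_mul, mul_comm s 2]
      linear_combination (e * ((p : ℤ) ^ (2 * s) * ((p : ℤ) ^ d * a₁ ^ m₁))) * huw
    rw [e1]; exact dvd_mul_right _ _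
  have hpd : (p : ℤ) ^ d ∣ x := by
    rw [hx]
    exact dvd_mul_of_dvd_left (dvd_mul_of_dvd_right (dvd_mul_right _ _) _) _
  have hxT : (p : ℤ) ^ N ∣ x ^ T := by
    refine dvd_trans ?_ (pow_dvd_pow_of_dvd hpd T)
    rw [← pow_mul]
    apply pow_dvd_pow
    have h5 : v * E ≤ v * (T * m₁) := Nat.mul_le_mul_left _ hE₁
    have h6 : v * (T * m₁) = T * (2 * s + d) := by rw [← hd]; ring
    rw [h6] at h5
    have h7 : T * (2 * s + d) = 2 * T * s + d * T := by ring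
    omega
  set σ := (ST q T).eval x with hσ
  have hσq : (p : ℤ) ^ N ∣ σ ^ q - (1 + (q : ℤ) ^ 2 * x) := by
    obtain ⟨R, hR⟩ := ST_pow hq0 T
    have h5 := congrArg (eval x) hR
    rw [eval_sub, eval_pow, eval_add, eval_one, eval_mul, eval_C, eval_X, eval_mul, eval_pow,
      eval_X, ← hσ] at h5
    rw [h5]
    exact dvd_mul_of_dvd_left hxT _
  have hNP : (p : ℤ) ^ N ∣ (NP q r 1).eval x - σ * (NP q r (-1)).eval x := by
    obtain ⟨R, hR⟩ := ST_NP (q := q) hr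
    have h5 := congrArg (eval x) hR
    rw [eval_sub, eval_mul, eval_mul, eval_pow, eval_X, ← hT, ← hσ] at h5
    rw [h5]
    exact dvd_mul_of_dvd_left hxT _
  have hp2x : (p : ℤ) ^ 2 ∣ x := (pow_dvd_pow _ (by omega)).trans hpd
  have hσ1 : (p : ℤ) ^ 2 ∣ σ - 1 := hp2x.trans (ST_one (by omega) x)
  have hpσ : (p : ℤ) ∣ σ - 1 := (dvd_pow_self _ (by norm_num)).trans hσ1
  -- the `q`-th powers
  have hpow : (p : ℤ) ^ N ∣ z₁ ^ q - (z₂ * σ) ^ q := by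
    have h5 : (p : ℤ) ^ N ∣ B₀ * (z₁ ^ q - W * σ ^ q) := by
      have e1 : B₀ * (z₁ ^ q - W * σ ^ q) =
          -W * ((q : ℤ) ^ 2 * B₀ * x - e * ((p : ℤ) ^ v * a₁) ^ m₁) -
            W * B₀ * (σ ^ q - (1 + (q : ℤ) ^ 2 * x)) := by
        linear_combination h₁
      rw [e1]
      exact dvd_sub (dvd_mul_of_dvd_right hBx _) (dvd_mul_of_dvd_right hσq _)
    have h6 : (p : ℤ) ^ N ∣ z₁ ^ q - W * σ ^ q :=
      (IsCoprime.pow_left hB.symm).dvd_of_dvd_mul_left h5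
    have h7 : (p : ℤ) ^ N ∣ z₂ ^ q - W := by
      refine (pow_dvd_pow _ ?_).trans h₂
      have : v * E ≤ v * m₂ := Nat.mul_le_mul_left _ hE₂
      omega
    have e2 : z₁ ^ q - (z₂ * σ) ^ q = (z₁ ^ q - W * σ ^ q) - (z₂ ^ q - W) * σ ^ q := by
      rw [mul_pow]; ring
    rw [e2]
    exact dvd_sub h6 (dvd_mul_of_dvd_left h7 _)
  have hlte := lte (q := q) hp (x := z₁) (y := z₂ * σ) (k := N)
    (by
      have e3 : z₁ - z₂ * σ = (z₁ - z₂) - z₂ * (σ - 1) := by ring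
      rw [e3]
      exact dvd_sub hcl (dvd_mul_of_dvd_right hpσ _)) hz₁
    (by
      intro h2
      have e3 : z₁ - z₂ * σ = (z₁ - z₂) - z₂ * (σ - 1) := by ring
      rw [e3]
      refine dvd_sub (h4 h2) (dvd_mul_of_dvd_right ?_ _)
      rw [h2] at hσ1
      exact_mod_cast hσ1) hpow
  -- conclusion
  have h1' := H_mod (q := q) (r := r) (ε := 1) hBx
  have h2' := H_mod (q := q) (r := r) (ε := -1) hBx
  set B := (q : ℤ) ^ 2 * B₀
  set A := e * ((p : ℤ) ^ v * a₁) ^ m₁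
  have e4 : (q : ℤ) * (H q r 1 A B * z₂ - H q r (-1) A B * z₁) =
      -(q * z₂) * (B ^ r * (NP q r 1).eval x - H q r 1 A B) +
      (q * z₁) * (B ^ r * (NP q r (-1)).eval x - H q r (-1) A B) +
      (q * z₂ * B ^ r) * ((NP q r 1).eval x - σ * (NP q r (-1)).eval x) -
      (B ^ r * (NP q r (-1)).eval x) * (q * (z₁ - z₂ * σ)) := by ring
  rw [e4]
  exact dvd_sub (dvd_add (dvd_add (dvd_mul_of_dvd_right h1' _) (dvd_mul_of_dvd_right h2' _))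
    (dvd_mul_of_dvd_right hNP _)) (dvd_mul_of_dvd_right hlte _)

/-- **divisibility of the auxiliary integer** -/
theorem div_key {a q r m₁ m₂ E : ℕ} {z₁ z₂ W B₀ e : ℤ} (ha : a ≠ 0) (hq0 : 0 < q)
    (hr : 1 ≤ r) (he : e = 1 ∨ e = -1) (hm : ∀ p : ℕ, 2 * q.factorization p + 2 ≤ m₁)
    (hB : IsCoprime B₀ (a : ℤ)) (hz₁ : IsCoprime z₁ (a : ℤ))
    (h₁ : z₁ ^ q * B₀ = W * (B₀ + e * (a : ℤ) ^ m₁)) (h₂ : (a : ℤ) ^ m₂ ∣ z₂ ^ q - W)
    (hcl : ∀ p : ℕ, p.Prime → p ∣ a → (p : ℤ) ∣ z₁ - z₂) (h4 : 2 ∣ a → (4 : ℤ) ∣ z₁ - z₂)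
    (hE₁ : E ≤ (2 * r + 1) * m₁) (hE₂ : E ≤ m₂) :
    (a : ℤ) ^ E ∣ (q : ℤ) ^ (2 * (2 * r + 1) + 1) *
      (H q r 1 (e * (a : ℤ) ^ m₁) ((q : ℤ) ^ 2 * B₀) * z₂ -
        H q r (-1) (e * (a : ℤ) ^ m₁) ((q : ℤ) ^ 2 * B₀) * z₁) := by
  set I := H q r 1 (e * (a : ℤ) ^ m₁) ((q : ℤ) ^ 2 * B₀) * z₂ -
        H q r (-1) (e * (a : ℤ) ^ m₁) ((q : ℤ) ^ 2 * B₀) * z₁ with hI
  have key : a ^ E ∣ ((q : ℤ) ^ (2 * (2 * r + 1) + 1) * I).natAbs := by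
    rw [Nat.dvd_iff_prime_pow_dvd_dvd]
    intro p k hp hk
    rcases Nat.eq_zero_or_pos k with hk0 | hk0
    · rw [hk0, pow_zero]; exact one_dvd _
    have hpa : p ∣ a := hp.dvd_of_dvd_pow ((dvd_pow_self p hk0.ne').trans hk)
    set v := a.factorization p with hv
    have hv1 : 1 ≤ v := (hp.dvd_iff_one_le_factorization ha).1 hpa
    have hkE : k ≤ v * E := by
      have h5 := (hp.pow_dvd_iff_le_factorization (pow_ne_zero E ha)).1 hk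
      rw [Nat.factorization_pow] at h5
      simp only [Finsupp.smul_apply, smul_eq_mul] at h5
      rw [mul_comm]; exact h5
    set s := q.factorization p with hs
    obtain ⟨q', hq'⟩ : p ^ s ∣ q := Nat.ordProj_dvd q p
    have hpq' : ¬ p ∣ q' := by
      have h5 := Nat.not_dvd_ordCompl hp hq0.ne'
      have h6 : q / p ^ q.factorization p = q' := by
        rw [← hs]
        conv_lhs => rw [hq']
        exact Nat.mul_div_cancel_left _ (pow_pos hp.pos s)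
      rwa [h6] at h5
    obtain ⟨a₁, ha₁⟩ : p ^ v ∣ a := Nat.ordProj_dvd a p
    suffices hsuf : (p : ℤ) ^ (v * E) ∣ (q : ℤ) ^ (2 * (2 * r + 1) + 1) * I by
      have h5 := Int.natAbs_dvd_natAbs.2 ((pow_dvd_pow (p : ℤ) hkE).trans hsuf)
      rwa [Int.natAbs_pow, Int.natAbs_natCast] at h5
    have hps : (p : ℤ) ^ s ∣ (q : ℤ) := by exact_mod_cast Nat.ordProj_dvd q p
    rcases Nat.lt_or_ge (2 * (2 * r + 1) * s) (v * E) with hlt | hge
    · obtain ⟨N, hN⟩ : ∃ N, N + 2 * (2 * r + 1) * s = v * E := ⟨v * E - 2 * (2 * r + 1) * s, by omega⟩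
      have hsm : 2 * s + 2 ≤ v * m₁ := (hm p).trans (Nat.le_mul_of_pos_left _ hv1)
      have haz : (a : ℤ) = (p : ℤ) ^ v * (a₁ : ℤ) := by exact_mod_cast ha₁
      have hpaz : (p : ℤ) ∣ (a : ℤ) := by exact_mod_cast hpa
      have hcop' : ∀ z : ℤ, IsCoprime z (a : ℤ) → IsCoprime z (p : ℤ) := fun z hz =>
        hz.of_isCoprime_of_dvd_right hpaz
      have hd := div_prime (a₁ := (a₁ : ℤ)) (q' := (q' : ℤ)) (s := s) (v := v) (N := N) (E := E)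
        (m₂ := m₂) (z₂ := z₂) hp hq0 hr he
        (by exact_mod_cast hq')
        (by
          have h5 : Nat.Coprime q' p := ((Nat.Prime.coprime_iff_not_dvd hp).2 hpq').symm
          exact Nat.isCoprime_iff_coprime.2 h5)
        (hcop' _ hB)
        (by
          intro hpz
          have h5 : IsUnit (p : ℤ) := (hcop' _ hz₁).isUnit_of_dvd' hpz dvd_rfl
          rw [Int.isUnit_iff] at h5
          have := hp.two_le
          omega)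
        hsm
        (by rw [← haz]; exact h₁)
        (by
          refine dvd_trans ?_ h₂
          rw [haz, mul_pow, ← pow_mul]
          exact dvd_mul_right _ _)
        (hcl p hp hpa)
        (fun h2 => h4 (h2 ▸ hpa)) hE₁ hE₂ hN
      rw [← haz, ← hI] at hd
      have e1 : (q : ℤ) ^ (2 * (2 * r + 1) + 1) * I = (q : ℤ) ^ (2 * (2 * r + 1)) * (q * I) := by
        rw [pow_succ]; ring
      rw [e1, ← hN, pow_add, mul_comm ((p : ℤ) ^ N)]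
      refine mul_dvd_mul ?_ hd
      rw [mul_comm (2 * (2 * r + 1)) s, pow_mul]
      exact pow_dvd_pow_of_dvd hps _
    · refine dvd_mul_of_dvd_left ?_ _
      refine (pow_dvd_pow (p : ℤ) hge).trans ?_
      rw [mul_comm (2 * (2 * r + 1)) s, pow_mul]
      exact (pow_dvd_pow_of_dvd hps _).trans (pow_dvd_pow _ (by omega))
  have h2 : ((a ^ E : ℕ) : ℤ) ∣ (q : ℤ) ^ (2 * (2 * r + 1) + 1) * I := Int.natCast_dvd.2 key
  exact_mod_cast h2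

end Pool.Agent.Y411.UF
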