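import Mathlib
import Pool.Agent.Y411.UF.Div
import Pool.Agent.Y411.PB.Pad

/-!
The gap principle: two solutions in the same class whose exponents are far apart do not exist.
-/

set_option autoImplicit false

namespace Pool.Agent.Y411.UF

open Finset

/-- the upper bound for a nonzero auxiliary integer -/
theorem upper {a q r m₁ m₂ z₁ z₂ B₀ : ℕ} {e : ℤ} (ha : 2 ≤ a) (hq : 3 ≤ q)
    (he : e = 1 ∨ e = -1) (hB : B₀ ≤ a ^ m₁)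
    (hz₁ : z₁ ^ q ≤ 2 * a ^ (m₁ + m₂)) (hz₂ : z₂ ^ q ≤ 2 * a ^ (m₁ + m₂))
    (hd : (a : ℤ) ^ m₂ ∣ (q : ℤ) ^ (2 * (2 * r + 1) + 1) *
      (H q r 1 (e * (a : ℤ) ^ m₁) ((q : ℤ) ^ 2 * B₀) * z₂ -
        H q r (-1) (e * (a : ℤ) ^ m₁) ((q : ℤ) ^ 2 * B₀) * z₁))
    (hne : H q r 1 (e * (a : ℤ) ^ m₁) ((q : ℤ) ^ 2 * B₀) * z₂ ≠
        H q r (-1) (e * (a : ℤ) ^ m₁) ((q : ℤ) ^ 2 * B₀) * z₁) :
    a ^ (q * m₂) ≤ (2 * q) ^ ((6 * r + 3) * q) * a ^ (q * (m₁ * r) + m₁ + m₂) := by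
  set z := max z₁ z₂ with hz
  have hzq : z ^ q ≤ 2 * a ^ (m₁ + m₂) := by
    rcases max_cases z₁ z₂ with h | h
    · rw [hz, h.1]; exact hz₁
    · rw [hz, h.1]; exact hz₂
  have hA : |e * (a : ℤ) ^ m₁| ≤ ((a ^ m₁ : ℕ) : ℤ) := by
    rw [abs_mul, abs_pow, Nat.abs_cast]
    rcases he with h | h <;> simp [h]
  have hB0 : (0 : ℤ) ≤ (q : ℤ) ^ 2 * B₀ := by positivity
  have hBU : (q : ℤ) ^ 2 * B₀ ≤ (q : ℤ) ^ 2 * ((a ^ m₁ : ℕ) : ℤ) := by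
    apply mul_le_mul_of_nonneg_left _ (by positivity)
    exact_mod_cast hB
  have b1 := H_bound (r := r) (by omega : 2 ≤ q) (Or.inl rfl : (1 : ℤ) = 1 ∨ (1 : ℤ) = -1) hA hB0 hBU
  have b2 := H_bound (r := r) (by omega : 2 ≤ q) (Or.inr rfl : (-1 : ℤ) = 1 ∨ (-1 : ℤ) = -1) hA hB0 hBU
  set H₁ := H q r 1 (e * (a : ℤ) ^ m₁) ((q : ℤ) ^ 2 * B₀)
  set H₂ := H q r (-1) (e * (a : ℤ) ^ m₁) ((q : ℤ) ^ 2 * B₀)
  set I := H₁ * z₂ - H₂ * z₁ with hI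
  have hI0 : I ≠ 0 := sub_ne_zero.2 hne
  have hq0 : (q : ℤ) ≠ 0 := by
    have : 0 < q := by omega
    exact_mod_cast this.ne'
  have h1 := Int.le_of_dvd (abs_pos.2 (mul_ne_zero (pow_ne_zero _ hq0) hI0)) ((dvd_abs _ _).2 hd)
  rw [abs_mul, abs_pow, Nat.abs_cast] at h1
  have h2 : |I| ≤ 4 * 16 ^ r * (q : ℤ) ^ (2 * r) * ((a ^ m₁ : ℕ) : ℤ) ^ r * z := by
    have h3 : |I| ≤ |H₁| * z₂ + |H₂| * z₁ := by
      rw [hI]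
      refine (abs_sub _ _).trans ?_
      rw [abs_mul, abs_mul, Nat.abs_cast, Nat.abs_cast]
    have hz1 : (z₁ : ℤ) ≤ z := by exact_mod_cast le_max_left z₁ z₂
    have hz2 : (z₂ : ℤ) ≤ z := by exact_mod_cast le_max_right z₁ z₂
    have h4 : |H₁| * z₂ ≤ (2 * 16 ^ r * (q : ℤ) ^ (2 * r) * ((a ^ m₁ : ℕ) : ℤ) ^ r) * z :=
      mul_le_mul b1 hz2 (by positivity) (by positivity)
    have h5 : |H₂| * z₁ ≤ (2 * 16 ^ r * (q : ℤ) ^ (2 * r) * ((a ^ m₁ : ℕ) : ℤ) ^ r) * z :=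
      mul_le_mul b2 hz1 (by positivity) (by positivity)
    calc |I| ≤ |H₁| * z₂ + |H₂| * z₁ := h3
      _ ≤ _ := add_le_add h4 h5
      _ = _ := by ring
  have h3 : a ^ m₂ ≤ q ^ (2 * (2 * r + 1) + 1) * (4 * 16 ^ r * q ^ (2 * r) * (a ^ m₁) ^ r * z) := by
    have h4 : (a : ℤ) ^ m₂ ≤ (q : ℤ) ^ (2 * (2 * r + 1) + 1) *
        (4 * 16 ^ r * (q : ℤ) ^ (2 * r) * ((a ^ m₁ : ℕ) : ℤ) ^ r * z) :=
      h1.trans (mul_le_mul_of_nonneg_left h2 (by positivity))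
    exact_mod_cast h4
  have h4 : q ^ (2 * (2 * r + 1) + 1) * (4 * 16 ^ r * q ^ (2 * r) * (a ^ m₁) ^ r * z) =
      (q ^ (6 * r + 3) * 2 ^ (4 * r + 2)) * (a ^ (m₁ * r) * z) := by
    have e1 : (16 : ℕ) ^ r = 2 ^ (4 * r) := by rw [pow_mul]; norm_num
    rw [e1, ← pow_mul]
    have e2 : q ^ (6 * r + 3) = q ^ (2 * (2 * r + 1) + 1) * q ^ (2 * r) := by
      rw [← pow_add]; congr 1; ring
    rw [e2, pow_add 2 (4 * r) 2]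
    ring
  rw [h4] at h3
  have h5 : a ^ (q * m₂) ≤ ((q ^ (6 * r + 3) * 2 ^ (4 * r + 2)) * (a ^ (m₁ * r) * z)) ^ q := by
    rw [mul_comm q m₂, pow_mul]
    exact Nat.pow_le_pow_left h3 q
  refine h5.trans ?_
  rw [mul_pow, mul_pow (a ^ (m₁ * r)) z q, ← pow_mul a]
  have h6 : (q ^ (6 * r + 3) * 2 ^ (4 * r + 2)) ^ q * 2 ≤ (2 * q) ^ ((6 * r + 3) * q) := by
    rw [mul_pow, ← pow_mul, ← pow_mul, mul_pow 2 q, mul_comm (2 ^ ((6 * r + 3) * q)), mul_assoc,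
      ← pow_succ]
    apply Nat.mul_le_mul_left
    apply Nat.pow_le_pow_right (by norm_num)
    have : (6 * r + 3) * q = (4 * r + 2) * q + (2 * r * q + q) := by ring
    omega
  calc (q ^ (6 * r + 3) * 2 ^ (4 * r + 2)) ^ q * (a ^ (m₁ * r * q) * z ^ q)
      ≤ (q ^ (6 * r + 3) * 2 ^ (4 * r + 2)) ^ q * (a ^ (m₁ * r * q) * (2 * a ^ (m₁ + m₂))) :=
        Nat.mul_le_mul_left _ (Nat.mul_le_mul_left _ hzq)
    _ = ((q ^ (6 * r + 3) * 2 ^ (4 * r + 2)) ^ q * 2) * (a ^ (m₁ * r * q) * a ^ (m₁ + m₂)) := by ring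
    _ ≤ (2 * q) ^ ((6 * r + 3) * q) * (a ^ (m₁ * r * q) * a ^ (m₁ + m₂)) :=
        Nat.mul_le_mul_right _ h6
    _ = _ := by
        rw [← pow_add]
        congr 2
        ring

/-- the arithmetic at the end -/
theorem arith {a q r m₁ m₂ : ℕ} (ha : 2 ≤ a) (hq : 3 ≤ q) (hbig : (2 * q) ^ 100 ≤ a ^ m₁)
    (hr : 2 * (m₁ * r) ≤ m₂ + 4 * m₁)
    (h : a ^ (q * m₂) ≤ (2 * q) ^ ((6 * r + 3) * q) * a ^ (q * (m₁ * r) + m₁ + m₂)) :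
    m₂ ≤ 20 * m₁ := by
  have h1 : a ^ (100 * (q * m₂)) ≤ a ^ (m₁ * ((6 * r + 3) * q) + 100 * (q * (m₁ * r) + m₁ + m₂)) := by
    have h2 := Nat.pow_le_pow_left h 100
    rw [← pow_mul, mul_pow, ← pow_mul, ← pow_mul] at h2
    rw [mul_comm 100 (q * m₂)]
    refine h2.trans ?_
    rw [pow_add, mul_comm ((6 * r + 3) * q) 100, pow_mul (2 * q) 100, pow_mul a m₁,
      mul_comm (q * (m₁ * r) + m₁ + m₂) 100]
    exact Nat.mul_le_mul_right _ (Nat.pow_le_pow_left hbig _)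
  have h2 := (Nat.pow_le_pow_iff_right (by omega : 1 < a)).1 h1
  have h3 : m₁ * ((6 * r + 3) * q) + 100 * (q * (m₁ * r) + m₁ + m₂) =
      q * (53 * (2 * (m₁ * r))) + 3 * (q * m₁) + 100 * (m₁ + m₂) := by ring
  rw [h3] at h2
  have h4 : q * (53 * (2 * (m₁ * r))) ≤ q * (53 * (m₂ + 4 * m₁)) :=
    Nat.mul_le_mul_left _ (Nat.mul_le_mul_left _ hr)
  have h5 : 100 * (m₁ + m₂) ≤ q * (34 * (m₁ + m₂)) := by nlinarith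
  have h6 : q * (100 * m₂) ≤ q * (53 * (m₂ + 4 * m₁) + 3 * m₁ + 34 * (m₁ + m₂)) := by
    calc q * (100 * m₂) = 100 * (q * m₂) := by ring
      _ ≤ _ := h2
      _ ≤ q * (53 * (m₂ + 4 * m₁)) + 3 * (q * m₁) + q * (34 * (m₁ + m₂)) := by omega
      _ = _ := by ring
  have h7 := Nat.le_of_mul_le_mul_left h6 (by omega)
  omega

/-- **the gap principle** -/
theorem gap {a b q m₁ n₁ m₂ n₂ y₁ y₂ t₁ t₂ : ℕ} {e₁ e₂ : ℤ} (ha : 2 ≤ a) (hb : 2 ≤ b)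
    (hab : Nat.Coprime a b) (hq : 3 ≤ q) (he₁ : e₁ = 1 ∨ e₁ = -1) (he₂ : e₂ = 1 ∨ e₂ = -1)
    (hn₁ : 1 ≤ n₁) (hy₁ : 0 < y₁) (hy₂ : 0 < y₂)
    (h₁ : (y₁ : ℤ) ^ q = e₁ * (a : ℤ) ^ m₁ + e₂ * (b : ℤ) ^ n₁)
    (h₂ : (y₂ : ℤ) ^ q = e₁ * (a : ℤ) ^ m₂ + e₂ * (b : ℤ) ^ n₂)
    (hle₁ : b ^ n₁ ≤ a ^ m₁) (hle₂ : b ^ n₂ ≤ a ^ m₂)
    (ht : n₁ + q * t₁ = n₂ + q * t₂) (ht0 : t₁ = 0 ∨ t₂ = 0)
    (hbig : (2 * q) ^ 100 ≤ a ^ m₁) (hfac : ∀ p : ℕ, 2 * q.factorization p + 2 ≤ m₁)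
    (hcl : ∀ p : ℕ, p.Prime → p ∣ a → (p : ℤ) ∣ (y₁ : ℤ) * (b : ℤ) ^ t₁ - (y₂ : ℤ) * (b : ℤ) ^ t₂)
    (h4 : 2 ∣ a → (4 : ℤ) ∣ (y₁ : ℤ) * (b : ℤ) ^ t₁ - (y₂ : ℤ) * (b : ℤ) ^ t₂) :
    m₂ ≤ 20 * m₁ := by
  have hm₁ : 1 ≤ m₁ := by have := hfac 0; omega
  have he₁' : e₁ * e₁ = 1 := by rcases he₁ with h | h <;> rw [h] <;> norm_num
  have he₂' : e₂ * e₂ = 1 := by rcases he₂ with h | h <;> rw [h] <;> norm_num
  have he : e₁ * e₂ = 1 ∨ e₁ * e₂ = -1 := by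
    rcases he₁ with h | h <;> rcases he₂ with h' | h' <;> rw [h, h'] <;> norm_num
  set z₁ := y₁ * b ^ t₁ with hz₁
  set z₂ := y₂ * b ^ t₂ with hz₂
  have hz₁' : (z₁ : ℤ) = (y₁ : ℤ) * (b : ℤ) ^ t₁ := by rw [hz₁]; push_cast; ring
  have hz₂' : (z₂ : ℤ) = (y₂ : ℤ) * (b : ℤ) ^ t₂ := by rw [hz₂]; push_cast; ring
  rw [← hz₁', ← hz₂'] at hcl h4
  set W : ℤ := e₂ * (b : ℤ) ^ (n₁ + q * t₁) with hW
  have habz : IsCoprime (b : ℤ) (a : ℤ) := Nat.isCoprime_iff_coprime.2 hab.symm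
  have hc1 : IsCoprime (z₁ : ℤ) (a : ℤ) := by
    rw [hz₁']
    exact IsCoprime.mul_left (Nat.isCoprime_iff_coprime.2 (PB.sol_coprime_a hab hm₁ he₂ (by omega) h₁)) habz.pow_left
  have hB : IsCoprime ((b ^ n₁ : ℕ) : ℤ) (a : ℤ) := by push_cast; exact habz.pow_left
  have k₁ : (z₁ : ℤ) ^ q * ((b ^ n₁ : ℕ) : ℤ) =
      W * (((b ^ n₁ : ℕ) : ℤ) + (e₁ * e₂) * (a : ℤ) ^ m₁) := by
    rw [hz₁', mul_pow, h₁, hW, ← pow_mul, mul_comm t₁ q, pow_add]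
    push_cast
    linear_combination (-(e₁ * (a : ℤ) ^ m₁ * (b : ℤ) ^ n₁ * (b : ℤ) ^ (q * t₁))) * he₂'
  have k₂' : (z₂ : ℤ) ^ q - W = (a : ℤ) ^ m₂ * (e₁ * (b : ℤ) ^ (q * t₂)) := by
    rw [hz₂', mul_pow, h₂, hW, ht, ← pow_mul, mul_comm t₂ q, pow_add]
    ring
  have k₂ : (a : ℤ) ^ m₂ ∣ (z₂ : ℤ) ^ q - W := by rw [k₂']; exact dvd_mul_right _ _
  -- sizes
  have hsz : ∀ {m n y t : ℕ}, (y : ℤ) ^ q = e₁ * (a : ℤ) ^ m + e₂ * (b : ℤ) ^ n → b ^ n ≤ a ^ m →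
      y ^ q ≤ 2 * a ^ m := by
    intro m n y t h hle
    have h5 : (y : ℤ) ^ q ≤ 2 * (a : ℤ) ^ m := by
      rw [h]
      have h6 : e₁ * (a : ℤ) ^ m ≤ (a : ℤ) ^ m := by
        have : (0 : ℤ) ≤ (a : ℤ) ^ m := by positivity
        rcases he₁ with h | h <;> rw [h] <;> linarith
      have h7 : e₂ * (b : ℤ) ^ n ≤ (a : ℤ) ^ m := by
        have h8 : (b : ℤ) ^ n ≤ (a : ℤ) ^ m := by exact_mod_cast hle
        have : (0 : ℤ) ≤ (b : ℤ) ^ n := by positivity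
        rcases he₂ with h | h <;> rw [h] <;> linarith
      linarith
    exact_mod_cast h5
  have s₁ : z₁ ^ q ≤ 2 * a ^ (m₁ + m₂) := by
    rw [hz₁, mul_pow, ← pow_mul]
    have h5 := hsz (t := 0) h₁ hle₁
    have h6 : b ^ (t₁ * q) ≤ a ^ m₂ := by
      rcases ht0 with h | h
      · rw [h, zero_mul, pow_zero]; exact Nat.one_le_pow _ _ (by omega)
      · refine (Nat.pow_le_pow_right (by omega) ?_).trans hle₂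
        rw [h] at ht
        rw [mul_comm]; omega
    calc y₁ ^ q * b ^ (t₁ * q) ≤ (2 * a ^ m₁) * a ^ m₂ := Nat.mul_le_mul h5 h6
      _ = _ := by rw [pow_add]; ring
  have s₂ : z₂ ^ q ≤ 2 * a ^ (m₁ + m₂) := by
    rw [hz₂, mul_pow, ← pow_mul]
    have h5 := hsz (t := 0) h₂ hle₂
    have h6 : b ^ (t₂ * q) ≤ a ^ m₁ := by
      rcases ht0 with h | h
      · refine (Nat.pow_le_pow_right (by omega) ?_).trans hle₁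
        rw [h] at ht
        rw [mul_comm]; omega
      · rw [h, zero_mul, pow_zero]; exact Nat.one_le_pow _ _ (by omega)
    calc y₂ ^ q * b ^ (t₂ * q) ≤ (2 * a ^ m₂) * a ^ m₁ := Nat.mul_le_mul h5 h6
      _ = _ := by rw [pow_add]; ring
  -- the two approximants
  obtain ⟨r₀, hr₀⟩ : ∃ r₀, r₀ = m₂ / (2 * m₁) + 1 := ⟨_, rfl⟩
  have hr00 : 1 ≤ r₀ := by rw [hr₀]; exact Nat.le_add_left _ _
  have hr1 : m₂ < 2 * m₁ * r₀ := by rw [hr₀]; exact Nat.lt_mul_div_succ m₂ (by omega)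
  have hr2 : 2 * m₁ * (m₂ / (2 * m₁)) ≤ m₂ := Nat.mul_div_le _ _
  have hfin : ∀ r : ℕ, r₀ ≤ r → r ≤ r₀ + 1 →
      H q r 1 (e₁ * e₂ * (a : ℤ) ^ m₁) ((q : ℤ) ^ 2 * ((b ^ n₁ : ℕ) : ℤ)) * z₂ ≠
        H q r (-1) (e₁ * e₂ * (a : ℤ) ^ m₁) ((q : ℤ) ^ 2 * ((b ^ n₁ : ℕ) : ℤ)) * z₁ →
      m₂ ≤ 20 * m₁ := by
    intro r hra hrb hne
    have hE₁ : m₂ ≤ (2 * r + 1) * m₁ := by
      have h5 : 2 * m₁ * r₀ ≤ 2 * m₁ * r := Nat.mul_le_mul_left _ hra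
      have h6 : (2 * r + 1) * m₁ = 2 * m₁ * r + m₁ := by ring
      omega
    have hd := div_key (by omega : a ≠ 0) (by omega : 0 < q) (hr00.trans hra) he hfac hB hc1 k₁ k₂
      hcl h4 hE₁ le_rfl
    have hu := upper ha hq he hle₁ s₁ s₂ hd hne
    refine arith ha hq hbig ?_ hu
    have h5 : m₁ * r ≤ m₁ * (r₀ + 1) := Nat.mul_le_mul_left _ hrb
    have h6 : 2 * (m₁ * (r₀ + 1)) = 2 * m₁ * (m₂ / (2 * m₁)) + 4 * m₁ := by rw [hr₀]; ring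
    omega
  by_cases hc : H q r₀ 1 (e₁ * e₂ * (a : ℤ) ^ m₁) ((q : ℤ) ^ 2 * ((b ^ n₁ : ℕ) : ℤ)) * z₂ =
        H q r₀ (-1) (e₁ * e₂ * (a : ℤ) ^ m₁) ((q : ℤ) ^ 2 * ((b ^ n₁ : ℕ) : ℤ)) * z₁
  · by_cases hc' : H q (r₀ + 1) 1 (e₁ * e₂ * (a : ℤ) ^ m₁) ((q : ℤ) ^ 2 * ((b ^ n₁ : ℕ) : ℤ)) * z₂ =
        H q (r₀ + 1) (-1) (e₁ * e₂ * (a : ℤ) ^ m₁) ((q : ℤ) ^ 2 * ((b ^ n₁ : ℕ) : ℤ)) * z₁
    · exfalso
      refine nonvanish (by omega : 2 ≤ q) hr00 ?_ ?_ ?_ ?_ hc hc'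
      · refine mul_ne_zero ?_ (pow_ne_zero _ (by exact_mod_cast (by omega : a ≠ 0)))
        rcases he with h | h <;> rw [h] <;> norm_num
      · refine mul_ne_zero (pow_ne_zero _ (by exact_mod_cast (by omega : q ≠ 0))) ?_
        exact_mod_cast (pow_pos (by omega : 0 < b) n₁).ne'
      · have : 0 < z₁ := Nat.mul_pos hy₁ (pow_pos (by omega) _)
        exact_mod_cast this.ne'
      · have : 0 < z₂ := Nat.mul_pos hy₂ (pow_pos (by omega) _)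
        exact_mod_cast this.ne'
    · exact hfin (r₀ + 1) (by omega) le_rfl hc'
  · exact hfin r₀ le_rfl (by omega) hc

end Pool.Agent.Y411.UF
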