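import Mathlib
import Pool.Agent.Y411.UF.Ineq
import Pool.Agent.Y411.PB.Cover

/-!
Counting the solutions of `y ^ q = e₁ a ^ m + e₂ b ^ n` without any bound on the exponents.
-/

set_option autoImplicit false

namespace Pool.Agent.Y411.UF

open Finset PB

variable {a b q : ℕ} {e₁ e₂ : ℤ}

/-- two solutions in the same class -/
theorem class_pair {f : ℕ → ℕ → (Fin q × Fin 4) × (a.primeFactors → Fin q)} (hq : 0 < q)
    (hf : ∀ Y₁ N₁ Y₂ N₂ : ℕ, N₁ ≤ N₂ →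
      (∀ p : ℕ, p.Prime → p ∣ a → (p : ℤ) ∣ (Y₁ : ℤ) ^ q - e₂ * b ^ N₁) →
      (∀ p : ℕ, p.Prime → p ∣ a → (p : ℤ) ∣ (Y₂ : ℤ) ^ q - e₂ * b ^ N₂) →
      f Y₁ N₁ = f Y₂ N₂ → q ∣ N₂ - N₁ ∧
        (∀ p : ℕ, p.Prime → p ∣ a → (p : ℤ) ∣ (Y₁ : ℤ) * b ^ ((N₂ - N₁) / q) - Y₂) ∧
        (2 ∣ a → (4 : ℤ) ∣ (Y₁ : ℤ) * b ^ ((N₂ - N₁) / q) - Y₂))
    {m₁ n₁ m₂ n₂ y₁ y₂ : ℕ} (hm₁ : 1 ≤ m₁) (hm₂ : 1 ≤ m₂) (hn : n₁ ≤ n₂)
    (h₁ : (y₁ : ℤ) ^ q = e₁ * (a : ℤ) ^ m₁ + e₂ * (b : ℤ) ^ n₁)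
    (h₂ : (y₂ : ℤ) ^ q = e₁ * (a : ℤ) ^ m₂ + e₂ * (b : ℤ) ^ n₂)
    (hc : f y₁ n₁ = f y₂ n₂) :
    ∃ t, n₂ = n₁ + q * t ∧ (∀ p : ℕ, p.Prime → p ∣ a → (p : ℤ) ∣ (y₁ : ℤ) * b ^ t - y₂) ∧
        (2 ∣ a → (4 : ℤ) ∣ (y₁ : ℤ) * b ^ t - y₂) := by
  have hdiv : ∀ {m n y : ℕ}, 1 ≤ m → (y : ℤ) ^ q = e₁ * (a : ℤ) ^ m + e₂ * (b : ℤ) ^ n →
      ∀ p : ℕ, p.Prime → p ∣ a → (p : ℤ) ∣ (y : ℤ) ^ q - e₂ * b ^ n := by
    intro m n y hm h p _ hpa
    have e1 : (y : ℤ) ^ q - e₂ * b ^ n = e₁ * (a : ℤ) ^ m := by rw [h]; ring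
    rw [e1]
    exact dvd_mul_of_dvd_right (dvd_pow (by exact_mod_cast hpa) (by omega)) _
  obtain ⟨h3, h4, h5⟩ := hf y₁ n₁ y₂ n₂ hn (hdiv hm₁ h₁) (hdiv hm₂ h₂) hc
  obtain ⟨t, ht⟩ := h3
  have ht' : (n₂ - n₁) / q = t := by rw [ht]; exact Nat.mul_div_cancel_left t hq
  rw [ht'] at h4 h5
  exact ⟨t, by omega, h4, h5⟩

/-- big solutions -/
theorem count_big (ha : 2 ≤ a) (hb : 2 ≤ b) (hab : Nat.Coprime a b) (hq : 3 ≤ q)
    (he₁ : e₁ = 1 ∨ e₁ = -1) (he₂ : e₂ = 1 ∨ e₂ = -1) {G : Finset (ℕ × ℕ)} {y : ℕ × ℕ → ℕ}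
    (hG : ∀ x ∈ G, 0 < y x ∧ (y x : ℤ) ^ q = e₁ * (a : ℤ) ^ x.1 + e₂ * (b : ℤ) ^ x.2 ∧
      1 ≤ x.1 ∧ 1 ≤ x.2 ∧ b ^ x.2 ≤ a ^ x.1 ∧ (2 * q) ^ 100 ≤ a ^ x.1 ∧
      ∀ p : ℕ, 2 * q.factorization p + 2 ≤ x.1) :
    G.card ≤ 1536 * q ^ (a.primeFactors.card + 1) := by
  classical
  have hq0 : 0 < q := by omega
  have : NeZero q := ⟨hq0.ne'⟩
  obtain ⟨f, hf⟩ := exists_class (by omega : a ≠ 0) hab hq0 e₂
  have hmain : ∀ k ∈ G.image (fun x => f (y x) x.2),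
      (G.filter fun x => f (y x) x.2 = k).card ≤ 384 := by
    intro k hk
    set F := G.filter (fun x => f (y x) x.2 = k) with hF
    have hFG : ∀ x ∈ F, x ∈ G ∧ f (y x) x.2 = k := fun x hx => mem_filter.1 hx
    have hne : F.Nonempty := by
      obtain ⟨x, hx, hxk⟩ := mem_image.1 hk
      exact ⟨x, mem_filter.2 ⟨hx, hxk⟩⟩
    obtain ⟨x₀, hx₀, hmin⟩ := exists_min_image F (fun x => x.1) hne
    -- the gap principle
    have hgap : ∀ x ∈ F, x.1 ≤ 20 * x₀.1 := by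
      intro x hx
      obtain ⟨hxG, hxk⟩ := hFG x hx
      obtain ⟨hx₀G, hx₀k⟩ := hFG x₀ hx₀
      obtain ⟨a1, a2, a3, a4, a5, a6, a7⟩ := hG x hxG
      obtain ⟨b1, b2, b3, b4, b5, b6, b7⟩ := hG x₀ hx₀G
      rcases le_total x₀.2 x.2 with hn | hn
      · obtain ⟨t, ht, h4, h5⟩ := class_pair hq0 hf b3 a3 hn b2 a2 (hx₀k.trans hxk.symm)
        refine gap (t₁ := t) (t₂ := 0) ha hb hab hq he₁ he₂ b4 b1 a1 b2 a2 b5 a5 ?_ (Or.inr rfl) b6 b7
          ?_ ?_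
        · omega
        · intro p hp hpa
          rw [pow_zero, mul_one]; exact h4 p hp hpa
        · intro h2
          rw [pow_zero, mul_one]; exact h5 h2
      · obtain ⟨t, ht, h4, h5⟩ := class_pair hq0 hf a3 b3 hn a2 b2 (hxk.trans hx₀k.symm)
        refine gap (t₁ := 0) (t₂ := t) ha hb hab hq he₁ he₂ b4 b1 a1 b2 a2 b5 a5 ?_ (Or.inl rfl) b6 b7
          ?_ ?_
        · omega
        · intro p hp hpa
          rw [pow_zero, mul_one]; exact dvd_sub_comm.1 (h4 p hp hpa)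
        · intro h2
          rw [pow_zero, mul_one]; exact dvd_sub_comm.1 (h5 h2)
    -- injectivity of the key
    have hinj' : ∀ x ∈ F, ∀ x' ∈ F, x.2 ≤ x'.2 → key a b x = key a b x' → x = x' := by
      intro x hx x' hx' hn hkey
      obtain ⟨hxG, hxk⟩ := hFG x hx
      obtain ⟨hx'G, hx'k⟩ := hFG x' hx'
      obtain ⟨a1, a2, a3, a4, a5, a6, a7⟩ := hG x hxG
      obtain ⟨b1, b2, b3, b4, b5, b6, b7⟩ := hG x' hx'G
      obtain ⟨t, ht, h4, h5⟩ := class_pair hq0 hf a3 b3 hn a2 b2 (hxk.trans hx'k.symm)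
      have k1 := (key_eq ha hb a3 b3 hkey).1
      have k2 := (key_eq ha hb b3 a3 hkey.symm).1
      have k3 := (key_eq ha hb b3 a3 hkey.symm).2
      have k4 := (key_eq ha hb b3 a3 hkey.symm).2
      set M := min x.1 x'.1 with hM
      have hlog : Nat.log 2 x.1 = Nat.log 2 x'.1 := by
        simp only [key, Prod.mk.injEq] at hkey
        exact hkey.1
      have hMP : 2 ^ Nat.log 2 x.1 ≤ M := by
        apply le_min
        · exact Nat.pow_log_le_self 2 (by omega)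
        · rw [hlog]; exact Nat.pow_log_le_self 2 (by omega)
      have hbig : 4 * q ^ 4 ≤ a ^ M := by
        have h6 : (2 * q) ^ 100 ≤ a ^ M := by
          rcases min_choice x.1 x'.1 with h | h
          · rw [hM, h]; exact a6
          · rw [hM, h]; exact b6
        refine le_trans ?_ h6
        calc 4 * q ^ 4 ≤ 16 * q ^ 4 := Nat.mul_le_mul_right _ (by norm_num)
          _ = (2 * q) ^ 4 := by rw [mul_pow]; norm_num
          _ ≤ (2 * q) ^ 100 := Nat.pow_le_pow_right (by omega) (by norm_num)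
      have hD : b ^ (4 * (q * t)) ≤ a ^ M := by
        apply pow_le_of_log ha hb
        have e1 : ((4 * (q * t) : ℕ) : ℝ) = 4 * ((x'.2 : ℝ) - x.2) := by
          rw [ht]; push_cast; ring
        rw [e1]
        refine k3.trans (mul_le_mul_of_nonneg_right ?_ (log_pos_two ha).le)
        exact_mod_cast hMP
      have hres := merge_one ha hb hab (by omega) he₁ he₂ a3 a4 b4 a1 b1 a2 b2 a5 b5
        (min_le_left _ _) (min_le_right _ _) (by omega) (by omega) hbig ht hD h4 h5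
      exact Prod.ext hres.1 hres.2
    have hinj : Set.InjOn (key a b) F := by
      intro x hx x' hx' hkey
      rcases le_total x.2 x'.2 with hn | hn
      · exact hinj' x (mem_coe.1 hx) x' (mem_coe.1 hx') hn hkey
      · exact (hinj' x' (mem_coe.1 hx') x (mem_coe.1 hx) hn hkey.symm).symm
    rw [← card_image_of_injOn hinj]
    have hsub : F.image (key a b) ⊆
        Icc (Nat.log 2 x₀.1) (Nat.log 2 x₀.1 + 5) ×ˢ (range 8 ×ˢ range 8) := by
      intro k' hk'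
      obtain ⟨x, hx, rfl⟩ := mem_image.1 hk'
      obtain ⟨hxG, hxk⟩ := hFG x hx
      obtain ⟨a1, a2, a3, a4, a5, a6, a7⟩ := hG x hxG
      have h6 := key_mem ha hb a3 le_rfl a5
      rw [mem_product] at h6 ⊢
      refine ⟨?_, h6.2⟩
      rw [mem_Icc]
      refine ⟨Nat.log_mono_right (hmin x hx), ?_⟩
      have h7 : x.1 < 2 ^ (Nat.log 2 x₀.1 + 6) := by
        have h8 : x₀.1 < 2 ^ (Nat.log 2 x₀.1 + 1) := Nat.lt_pow_succ_log_self (by norm_num) _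
        have h9 : 2 ^ (Nat.log 2 x₀.1 + 6) = 32 * 2 ^ (Nat.log 2 x₀.1 + 1) := by
          rw [pow_add, pow_add]; ring
        have := hgap x hx
        omega
      have h8 := Nat.log_lt_of_lt_pow (by omega) h7
      exact Nat.lt_succ_iff.1 h8
    have h3 := card_le_card hsub
    rw [card_product, card_product, card_range, Nat.card_Icc] at h3
    omega
  have h1 := card_le_mul_card_image (f := fun x => f (y x) x.2) G 384 hmain
  have h2 : (G.image (fun x => f (y x) x.2)).card ≤ 4 * q ^ (a.primeFactors.card + 1) := by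
    rw [← card_classes a q]
    exact card_le_univ _
  calc G.card ≤ 384 * (G.image (fun x => f (y x) x.2)).card := h1
    _ ≤ 384 * (4 * q ^ (a.primeFactors.card + 1)) := Nat.mul_le_mul_left _ h2
    _ = _ := by ring

/-- all solutions with `b ^ n ≤ a ^ m` -/
theorem count_half {S : ℕ} (ha : 2 ≤ a) (hb : 2 ≤ b) (hab : Nat.Coprime a b) (hq : 3 ≤ q)
    (hfac : ∀ p : ℕ, q.factorization p ≤ 2) (haS : a < 2 ^ S)
    (he₁ : e₁ = 1 ∨ e₁ = -1) (he₂ : e₂ = 1 ∨ e₂ = -1) {G : Finset (ℕ × ℕ)} {y : ℕ × ℕ → ℕ}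
    (hG : ∀ x ∈ G, 0 < y x ∧ (y x : ℤ) ^ q = e₁ * (a : ℤ) ^ x.1 + e₂ * (b : ℤ) ^ x.2 ∧
      1 ≤ x.1 ∧ 1 ≤ x.2 ∧ b ^ x.2 ≤ a ^ x.1) :
    G.card ≤ 1536 * q ^ (a.primeFactors.card + 1) + (100 * q + 6 * S) ^ 2 := by
  classical
  rw [← card_filter_add_card_filter_not (s := G) (fun x => (2 * q) ^ 100 ≤ a ^ x.1 ∧ 6 ≤ x.1)]
  refine add_le_add ?_ ?_
  · apply count_big ha hb hab hq he₁ he₂ (y := y)
    intro x hx
    obtain ⟨hx1, hx2, hx3⟩ := mem_filter.1 hx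
    obtain ⟨h3, h4, h5, h6, h8⟩ := hG x hx1
    refine ⟨h3, h4, h5, h6, h8, hx2, fun p => ?_⟩
    have := hfac p
    omega
  · have hsub : (G.filter fun x => ¬ ((2 * q) ^ 100 ≤ a ^ x.1 ∧ 6 ≤ x.1)) ⊆
        range (100 * q + 6 * S) ×ˢ range (100 * q + 6 * S) := by
      intro x hx
      obtain ⟨hx1, hx2⟩ := mem_filter.1 hx
      obtain ⟨h3, h4, h5, h6, h8⟩ := hG x hx1
      have h2q : 2 * q ≤ 2 ^ q := by
        have h9 : q < 2 ^ (q - 1 + 1) := by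
          have : q - 1 + 1 = q := by omega
          rw [this]; exact Nat.lt_two_pow_self
        have h10 : q ≤ 2 ^ (q - 1) := by
          have := @Nat.lt_two_pow_self (q - 1)
          omega
        have h11 : 2 ^ q = 2 * 2 ^ (q - 1) := by
          rw [← pow_succ']; congr 1; omega
        omega
      have hS0 : 0 < S := by
        rcases Nat.eq_zero_or_pos S with h | h
        · rw [h, pow_zero] at haS; omega
        · exact h
      have hbd : a ^ x.1 < 2 ^ (100 * q + 6 * S) := by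
        by_cases hc : (2 * q) ^ 100 ≤ a ^ x.1
        · have h9 : x.1 < 6 := by
            by_contra hcon
            exact hx2 ⟨hc, by omega⟩
          calc a ^ x.1 ≤ a ^ 6 := Nat.pow_le_pow_right (by omega) h9.le
            _ < (2 ^ S) ^ 6 := Nat.pow_lt_pow_left haS (by norm_num)
            _ = 2 ^ (6 * S) := by rw [← pow_mul, mul_comm]
            _ ≤ _ := Nat.pow_le_pow_right (by norm_num) (by omega)
        · push Not at hc
          calc a ^ x.1 < (2 * q) ^ 100 := hc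
            _ ≤ (2 ^ q) ^ 100 := Nat.pow_le_pow_left h2q _
            _ = 2 ^ (100 * q) := by rw [← pow_mul, mul_comm]
            _ ≤ _ := Nat.pow_le_pow_right (by norm_num) (by omega)
      have key2 : ∀ c m : ℕ, 2 ≤ c → c ^ m < 2 ^ (100 * q + 6 * S) → m < 100 * q + 6 * S := by
        intro c m hc hcm
        have e1 : 2 ^ m < 2 ^ (100 * q + 6 * S) := (Nat.pow_le_pow_left hc m).trans_lt hcm
        exact (Nat.pow_lt_pow_iff_right (by norm_num : 1 < 2)).1 e1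
      rw [mem_product, mem_range, mem_range]
      exact ⟨key2 a _ ha hbd, key2 b _ hb (lt_of_le_of_lt h8 hbd)⟩
    have h3 := card_le_card hsub
    rw [card_product, card_range] at h3
    rw [sq]
    exact h3

end Pool.Agent.Y411.UF
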