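import Mathlib
import Pool.Agent.Y411.UF.Lte
import Pool.Agent.Y411.PB.KB

/-!
A bound for the prime exponent `q` in `y ^ q = e₁ a ^ m + e₂ b ^ n` which does not depend on the
exponents `m`, `n`.
-/

set_option autoImplicit false

namespace Pool.Agent.Y411.UF

/-- two different `q`-th roots modulo `p` -/
theorem order_dvd {p q m : ℕ} {y x : ℤ} (hp : p.Prime) (hq : q.Prime) (hm : 1 ≤ m)
    (hy : ¬ (p : ℤ) ∣ y) (hx : ¬ (p : ℤ) ∣ x) (hne : ¬ (p : ℤ) ∣ y - x)
    (h : (p : ℤ) ^ m ∣ y ^ q - x ^ q) : q < p := by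
  have := Fact.mk hp
  have hy' : (y : ZMod p) ≠ 0 := fun h1 => hy ((ZMod.intCast_zmod_eq_zero_iff_dvd _ _).1 h1)
  have hx' : (x : ZMod p) ≠ 0 := fun h1 => hx ((ZMod.intCast_zmod_eq_zero_iff_dvd _ _).1 h1)
  have hp1 : (p : ℤ) ∣ y ^ q - x ^ q := (dvd_pow_self _ (by omega)).trans h
  have h1 : (y : ZMod p) ^ q = (x : ZMod p) ^ q := by
    have h2 := (ZMod.intCast_zmod_eq_zero_iff_dvd _ _).2 hp1
    push_cast at h2
    exact sub_eq_zero.1 h2
  have h2 : ((y : ZMod p) / x) ^ q = 1 := by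
    rw [div_pow, h1, div_self (pow_ne_zero _ hx')]
  have h3 : (y : ZMod p) / x ≠ 1 := by
    intro h4
    rw [div_eq_one_iff_eq hx'] at h4
    apply hne
    rw [← ZMod.intCast_zmod_eq_zero_iff_dvd]
    push_cast
    rw [h4, sub_self]
  have := Fact.mk hq
  have h4 : orderOf ((y : ZMod p) / x) = q := orderOf_eq_prime h2 h3
  have h5 : ((y : ZMod p) / x) ^ (p - 1) = 1 := ZMod.pow_card_sub_one_eq_one (div_ne_zero hy' hx')
  have h6 := orderOf_dvd_of_pow_eq_one h5
  rw [h4] at h6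
  have h7 := Nat.le_of_dvd (by have := hp.two_le; omega) h6
  have := hp.two_le
  omega

/-- **an odd prime `p` divides `a`, `b ^ n ≤ a ^ (2 m)`** -/
theorem kb_pad {p a b m n q S y : ℕ} {e₁ e₂ : ℤ} (hp : p.Prime) (hp2 : p ≠ 2) (hq : q.Prime) (ha : 2 ≤ a)
    (hb : 2 ≤ b) (hab : Nat.Coprime a b) (ha2 : p ∣ a) (haS : a < 2 ^ S) (hbS : b < 2 ^ S)
    (hm : 1 ≤ m) (hn : 1 ≤ n) (he₁ : e₁ = 1 ∨ e₁ = -1) (he₂ : e₂ = 1 ∨ e₂ = -1) (hy : 2 ≤ y)
    (heq : (y : ℤ) ^ q = e₁ * (a : ℤ) ^ m + e₂ * (b : ℤ) ^ n) (hle : b ^ n ≤ a ^ (2 * m)) :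
    q < 4000000 * (Nat.log 2 q + 1) ^ 2 * (p * S) ^ 2 := by
  have hq2 := hq.two_le
  have hS : 1 ≤ S := by
    rcases Nat.eq_zero_or_pos S with h0 | h0
    · rw [h0, pow_zero] at haS; omega
    · exact h0
  set lam := Nat.log 2 q + 1 with hlam
  have hlam1 : 1 ≤ lam := by omega
  have hp1 := hp.two_le
  have hb2 : ¬ p ∣ b := by
    intro h
    have := Nat.dvd_gcd ha2 h
    rw [hab] at this
    exact hp.one_lt.ne' (Nat.dvd_one.1 this)
  have hya : Nat.Coprime y a := PB.sol_coprime_a hab hm he₂ hq.pos heq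
  have hyb : Nat.Coprime y b := PB.sol_coprime_b hab hn he₁ hq.pos heq
  have hy2 : ¬ p ∣ y := by
    intro h
    have := Nat.dvd_gcd h ha2
    rw [hya] at this
    exact hp.one_lt.ne' (Nat.dvd_one.1 this)
  have hone : 1 ≤ lam ^ 2 * (p * S) ^ 2 := Nat.one_le_iff_ne_zero.2 (by positivity)
  have hSpS : S ≤ lam ^ 2 * (p * S) ^ 2 := by
    calc S ≤ p * S := Nat.le_mul_of_pos_left _ hp.pos
      _ ≤ 1 * (p * S) ^ 2 := by rw [one_mul]; exact Nat.le_self_pow (by norm_num) _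
      _ ≤ lam ^ 2 * (p * S) ^ 2 := Nat.mul_le_mul_right _ (Nat.one_le_pow _ _ hlam1)
  have hSlam : p * S * lam ≤ lam ^ 2 * (p * S) ^ 2 := by
    rw [mul_comm (lam ^ 2)]
    exact Nat.mul_le_mul (Nat.le_self_pow (by norm_num) _) (Nat.le_self_pow (by norm_num) lam)
  set t := n / q with ht
  set i := n % q with hi
  have hnt : q * t + i = n := Nat.div_add_mod n q
  have hiq : i < q := Nat.mod_lt _ hq.pos
  -- sizes
  set H := 2 * m * S + 1 with hH
  have ha2m : a ^ (2 * m) < 2 ^ (2 * m * S) := by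
    calc a ^ (2 * m) < (2 ^ S) ^ (2 * m) := Nat.pow_lt_pow_left haS (by omega)
      _ = 2 ^ (2 * m * S) := by rw [← pow_mul]; congr 1; ring
  have ham : a ^ m ≤ a ^ (2 * m) := Nat.pow_le_pow_right (by omega) (by omega)
  have hyH : y ^ q < 2 ^ H := by
    have h1 : (y : ℤ) ^ q ≤ (a : ℤ) ^ m + (b : ℤ) ^ n := by
      rw [heq]
      have h2 : e₁ * (a : ℤ) ^ m ≤ (a : ℤ) ^ m := by
        have : (0 : ℤ) ≤ (a : ℤ) ^ m := by positivity
        rcases he₁ with rfl | rfl <;> linarith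
      have h3 : e₂ * (b : ℤ) ^ n ≤ (b : ℤ) ^ n := by
        have : (0 : ℤ) ≤ (b : ℤ) ^ n := by positivity
        rcases he₂ with rfl | rfl <;> linarith
      linarith
    have h2 : y ^ q ≤ a ^ m + b ^ n := by exact_mod_cast h1
    have h3 : 2 ^ H = 2 * 2 ^ (2 * m * S) := by rw [hH, pow_succ]; ring
    omega
  set h := H / q + 1 with hh
  have hh1 : 1 ≤ h := by rw [hh]; exact Nat.le_add_left 1 _
  have hhq1 : H < h * q := by
    have := Nat.lt_div_mul_add (a := H) hq.pos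
    rw [hh, add_mul, one_mul]; exact this
  have hqH : q < H := by
    have h1 : 2 ^ q ≤ y ^ q := Nat.pow_le_pow_left hy q
    exact (Nat.pow_lt_pow_iff_right (by norm_num : 1 < 2)).1 (lt_of_le_of_lt h1 hyH)
  have hhq2 : h * q ≤ 6 * m * S := by
    have h1 : h * q ≤ H + q := by
      rw [hh, add_mul, one_mul]
      exact Nat.add_le_add_right (Nat.div_mul_le_self _ _) _
    have h2 : 1 ≤ m * S := Nat.mul_pos hm hS
    have h3 : 2 * m * S = 2 * (m * S) := by ring
    have h4 : 6 * m * S = 6 * (m * S) := by ring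
    omega
  have hyh : y < 2 ^ h := by
    have h1 : y ^ q < (2 ^ h) ^ q := by
      rw [← pow_mul]
      exact hyH.trans_le (Nat.pow_le_pow_right (by norm_num) hhq1.le)
    exact lt_of_pow_lt_pow_left₀ q (Nat.zero_le _) h1
  have hbth : b ^ t < 2 ^ h := by
    have h1 : (b ^ t) ^ q < (2 ^ h) ^ q := by
      calc (b ^ t) ^ q = b ^ (q * t) := by rw [← pow_mul, mul_comm]
        _ ≤ b ^ n := Nat.pow_le_pow_right (by omega) (by omega)
        _ ≤ a ^ (2 * m) := hle
        _ < 2 ^ (2 * m * S) := ha2m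
        _ ≤ (2 ^ h) ^ q := by
          rw [← pow_mul]; exact Nat.pow_le_pow_right (by norm_num) (by omega)
    exact lt_of_pow_lt_pow_left₀ q (Nat.zero_le _) h1
  have hyne : y ≠ b ^ t := by
    intro h1
    rcases Nat.eq_zero_or_pos t with h0 | h0
    · rw [h0, pow_zero] at h1; omega
    · have h2 : b ∣ y := by rw [h1]; exact dvd_pow_self b h0.ne'
      have := Nat.eq_one_of_dvd_coprimes hyb h2 dvd_rfl
      omega
  have h2m : (p : ℤ) ^ m ∣ (a : ℤ) ^ m := pow_dvd_pow_of_dvd (by exact_mod_cast ha2) m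
  have hmq : m * q < 4000000 * lam ^ 2 * (p * S) ^ 2 * m → q < 4000000 * lam ^ 2 * (p * S) ^ 2 := by
    intro h1
    have h2 : m * q < m * (4000000 * lam ^ 2 * (p * S) ^ 2) := by
      rw [mul_comm m (4000000 * _ * _)]; exact h1
    exact lt_of_mul_lt_mul_left h2 (Nat.zero_le _)
  rcases Nat.eq_zero_or_pos i with hi0 | hi0
  · -- `q` divides `n`
    rcases hq.eq_two_or_odd' with h2 | hqo
    · calc q = 2 := h2
        _ < 4000000 * (lam ^ 2 * (p * S) ^ 2) := by omega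
        _ = _ := by ring
    · have hn' : n = q * t := by omega
      have hb' : e₂ * (b : ℤ) ^ n = (e₂ * (b : ℤ) ^ t) ^ q := by
        rw [mul_pow, ← pow_mul, hn', mul_comm t q]
        congr 1
        rcases he₂ with rfl | rfl
        · rw [one_pow]
        · exact (hqo.neg_one_pow).symm
      have hd : (p : ℤ) ^ m ∣ (y : ℤ) ^ q - (e₂ * (b : ℤ) ^ t) ^ q := by
        rw [← hb', heq]
        have e : e₁ * (a : ℤ) ^ m + e₂ * (b : ℤ) ^ n - e₂ * (b : ℤ) ^ n = e₁ * (a : ℤ) ^ m := by ring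
        rw [e]
        exact dvd_mul_of_dvd_right h2m _
      have hpz : Prime (p : ℤ) := Nat.prime_iff_prime_int.1 hp
      have hyz : ¬ (p : ℤ) ∣ (y : ℤ) := fun h1 => hy2 (by exact_mod_cast h1)
      have hbz : ¬ (p : ℤ) ∣ (b : ℤ) := fun h1 => hb2 (by exact_mod_cast h1)
      have hxz : ¬ (p : ℤ) ∣ e₂ * (b : ℤ) ^ t := by
        intro h1
        rcases hpz.dvd_or_dvd h1 with h2 | h2
        · have h3 : IsUnit e₂ := by rcases he₂ with rfl | rfl <;> simp
          exact hpz.not_unit (isUnit_of_dvd_unit h2 h3)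
        · exact hbz (hpz.dvd_of_dvd_pow h2)
      by_cases hcl : (p : ℤ) ∣ (y : ℤ) - e₂ * (b : ℤ) ^ t
      · have hd2 := lte hp hcl hyz (fun h2 => absurd h2 hp2) hd
        have hne0 : (y : ℤ) - e₂ * (b : ℤ) ^ t ≠ 0 := by
          intro h1
          rcases he₂ with rfl | rfl
          · apply hyne
            have : (y : ℤ) = (b : ℤ) ^ t := by linarith
            exact_mod_cast this
          · have h2 : (0 : ℤ) < (b : ℤ) ^ t := by positivity
            have h3 : (0 : ℤ) ≤ y := by positivity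
            linarith
        have hqz : (q : ℤ) ≠ 0 := by exact_mod_cast hq.ne_zero
        have h3 := Int.le_of_dvd (abs_pos.2 (mul_ne_zero hqz hne0)) ((dvd_abs _ _).2 hd2)
        have h4 : |(y : ℤ) - e₂ * (b : ℤ) ^ t| < 2 ^ (h + 1) := by
          have h5 : (y : ℤ) < 2 ^ h := by exact_mod_cast hyh
          have h6 : (b : ℤ) ^ t < 2 ^ h := by exact_mod_cast hbth
          have h7 : (0 : ℤ) < (b : ℤ) ^ t := by positivity
          have h8 : (0 : ℤ) ≤ y := by positivity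
          rw [pow_succ, abs_lt]
          rcases he₂ with rfl | rfl <;> constructor <;> linarith
        have hql : (q : ℤ) < 2 ^ lam := by
          exact_mod_cast Nat.lt_pow_succ_log_self (by norm_num) q
        have h5 : (2 : ℤ) ^ m < 2 ^ (lam + (h + 1)) := by
          calc (2 : ℤ) ^ m ≤ (p : ℤ) ^ m :=
                pow_le_pow_left₀ (by norm_num) (by exact_mod_cast hp1) m
            _ ≤ |(q : ℤ) * ((y : ℤ) - e₂ * (b : ℤ) ^ t)| := h3
            _ = (q : ℤ) * |(y : ℤ) - e₂ * (b : ℤ) ^ t| := by rw [abs_mul, Nat.abs_cast]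
            _ < 2 ^ lam * 2 ^ (h + 1) := by
                apply mul_lt_mul'' hql h4 (by positivity) (abs_nonneg _)
            _ = _ := by rw [← pow_add]
        have h6 : m < lam + (h + 1) := (pow_lt_pow_iff_right₀ (by norm_num : (1 : ℤ) < 2)).1 h5
        rcases Nat.lt_or_ge m (2 * lam) with hml | hml
        · have h7 : H ≤ 4 * (lam * S) + 1 := by
            rw [hH]
            have : m * S ≤ 2 * lam * S := Nat.mul_le_mul_right _ hml.le
            have e1 : 2 * m * S = 2 * (m * S) := by ring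
            have e2 : 2 * lam * S = 2 * (lam * S) := by ring
            omega
          have h8 : lam * S ≤ lam ^ 2 * (p * S) ^ 2 := by
            refine le_trans ?_ hSlam
            rw [mul_comm lam S]
            exact Nat.mul_le_mul_right _ (Nat.le_mul_of_pos_left _ hp.pos)
          calc q < H := hqH
            _ ≤ 4 * (lam * S) + 1 := h7
            _ ≤ 4000000 * (lam ^ 2 * (p * S) ^ 2) := by omega
            _ = _ := by ring
        · apply hmq
          have h7 : m ≤ 2 * (h + 1) := by omega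
          calc m * q ≤ 2 * (h + 1) * q := Nat.mul_le_mul_right _ h7
            _ ≤ 4 * (h * q) := by nlinarith
            _ ≤ 4 * (6 * m * S) := Nat.mul_le_mul_left _ hhq2
            _ = 24 * (S * m) := by ring
            _ ≤ 24 * (lam ^ 2 * (p * S) ^ 2 * m) :=
              Nat.mul_le_mul_left _ (Nat.mul_le_mul_right _ hSpS)
            _ < 4000000 * (lam ^ 2 * (p * S) ^ 2 * m) := by
              have h7 : 0 < lam ^ 2 * (p * S) ^ 2 * m := Nat.mul_pos hone hm
              omega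
            _ = _ := by ring
      · have hqp := order_dvd hp hq hm hyz hxz hcl hd
        have h7 : q ≤ p := hqp.le
        calc q ≤ p := h7
          _ ≤ p * S * lam := by
            rw [mul_assoc]; exact Nat.le_mul_of_pos_right _ (Nat.mul_pos hS hlam1)
          _ ≤ lam ^ 2 * (p * S) ^ 2 := hSlam
          _ < 4000000 * (lam ^ 2 * (p * S) ^ 2) := by omega
          _ = _ := by ring
  · by_cases hbig : 600 * p * S * lam ≤ q
    · have hrel : (p : ℤ) ^ m ∣ (y : ℤ) ^ (2 * q) - ((b ^ t : ℕ) : ℤ) ^ (2 * q) * (b : ℤ) ^ (2 * i) := by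
        have e : (y : ℤ) ^ (2 * q) - ((b ^ t : ℕ) : ℤ) ^ (2 * q) * (b : ℤ) ^ (2 * i)
            = (e₁ * (a : ℤ) ^ m) * ((y : ℤ) ^ q + e₂ * (b : ℤ) ^ n) := by
          have e1 : ((b ^ t : ℕ) : ℤ) ^ (2 * q) * (b : ℤ) ^ (2 * i) = (b : ℤ) ^ n * (b : ℤ) ^ n := by
            push_cast
            rw [← pow_mul, ← pow_add, ← pow_add, ← hnt]; congr 1; ring
          have e2 : e₁ * (a : ℤ) ^ m = (y : ℤ) ^ q - e₂ * (b : ℤ) ^ n := by rw [heq]; ring
          have e3 : e₂ * e₂ = 1 := by rcases he₂ with rfl | rfl <;> norm_num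
          rw [e1, e2, two_mul, pow_add]
          linear_combination ((b : ℤ) ^ n * (b : ℤ) ^ n) * e3
        rw [e]
        push_cast
        exact dvd_mul_of_dvd_left (dvd_mul_of_dvd_right h2m _) _
      have hcop : Nat.Coprime i q :=
        ((Nat.Prime.coprime_iff_not_dvd hq).2 (Nat.not_dvd_of_pos_of_lt hi0 hiq)).symm
      have hb2t : ¬ p ∣ b ^ t := fun h1 => hb2 (hp.dvd_of_dvd_pow h1)
      have hlt := Pool.Agent.H374R2.V.TL.two_logs (p := p) (h := h) (ν := S) (q := q) (i := i)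
        (y := m) (a := y) (b := b ^ t) (A := b) hp hh1 hS (by omega)
        (by positivity) (by omega) hyne hyh hbth hbS hy2 hb2t hb2 hi0 hiq hcop hrel
        (by rw [hlam] at hbig; exact hbig)
      apply hmq
      have hlt' : m < 150000 * p ^ 2 * lam ^ 2 * h * S := hlt
      calc m * q < 150000 * p ^ 2 * lam ^ 2 * h * S * q := Nat.mul_lt_mul_of_pos_right hlt' hq.pos
        _ = 150000 * p ^ 2 * lam ^ 2 * S * (h * q) := by ring
        _ ≤ 150000 * p ^ 2 * lam ^ 2 * S * (6 * m * S) := Nat.mul_le_mul_left _ hhq2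
        _ = 900000 * (lam ^ 2 * (p * S) ^ 2 * m) := by ring
        _ ≤ 4000000 * (lam ^ 2 * (p * S) ^ 2 * m) := Nat.mul_le_mul_right _ (by norm_num)
        _ = _ := by ring
    · push Not at hbig
      calc q < 600 * p * S * lam := hbig
        _ = 600 * (p * S * lam) := by ring
        _ ≤ 600 * (lam ^ 2 * (p * S) ^ 2) := Nat.mul_le_mul_left _ hSlam
        _ ≤ 4000000 * (lam ^ 2 * (p * S) ^ 2) := Nat.mul_le_mul_right _ (by norm_num)
        _ = _ := by ring

/-- one orientation -/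
theorem kb_prime {p a b m n q S y : ℕ} {e₁ e₂ : ℤ} (hp : p.Prime) (hq : q.Prime) (ha : 2 ≤ a)
    (hb : 2 ≤ b) (hab : Nat.Coprime a b) (hpa : p ∣ a) (haS : a < 2 ^ S) (hbS : b < 2 ^ S)
    (hm : 1 ≤ m) (hn : 1 ≤ n) (he₁ : e₁ = 1 ∨ e₁ = -1) (he₂ : e₂ = 1 ∨ e₂ = -1) (hy : 2 ≤ y)
    (heq : (y : ℤ) ^ q = e₁ * (a : ℤ) ^ m + e₂ * (b : ℤ) ^ n) :
    q ≤ 128 * 2000000000 ^ 2 * (p * S) ^ 4 := by
  have hpS : S ≤ p * S := Nat.le_mul_of_pos_left _ hp.pos
  rcases eq_or_ne p 2 with h2 | h2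
  · have h3 := PB.kb_even hq ha hb hab (h2 ▸ hpa) haS hbS hm hn he₁ he₂ hy heq
    exact h3.trans (Nat.mul_le_mul_left _ (Nat.pow_le_pow_left hpS 4))
  · apply PB.from_lam hq.one_lt.le
    rcases le_total (b ^ n) (a ^ (2 * m)) with h | h
    · have h1 := kb_pad hp h2 hq ha hb hab hpa haS hbS hm hn he₁ he₂ hy heq h
      refine h1.trans_le ?_
      exact Nat.mul_le_mul_right _ (Nat.mul_le_mul_right _ (by norm_num))
    · refine (PB.kb_arch hq ha hb hab hbS hm hn he₁ he₂ hy heq h).trans_le ?_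
      exact Nat.mul_le_mul_left _ (Nat.pow_le_pow_left hpS 2)

/-- **the exponent bound** -/
theorem kb {P a b m n q S y : ℕ} {e₁ e₂ : ℤ} (hP : P.Prime) (hq : q.Prime) (ha : 2 ≤ a)
    (hb : 2 ≤ b) (hab : Nat.Coprime a b) (hPab : P ∣ a * b) (haS : a < 2 ^ S) (hbS : b < 2 ^ S)
    (hm : 1 ≤ m) (hn : 1 ≤ n) (he₁ : e₁ = 1 ∨ e₁ = -1) (he₂ : e₂ = 1 ∨ e₂ = -1) (hy : 2 ≤ y)
    (heq : (y : ℤ) ^ q = e₁ * (a : ℤ) ^ m + e₂ * (b : ℤ) ^ n) :
    q ≤ 128 * 2000000000 ^ 2 * (P * S) ^ 4 := by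
  rcases hP.dvd_mul.1 hPab with h | h
  · exact kb_prime hP hq ha hb hab h haS hbS hm hn he₁ he₂ hy heq
  · exact kb_prime hP hq hb ha hab.symm h hbS haS hn hm he₂ he₁ hy (by rw [heq, add_comm])

end Pool.Agent.Y411.UF
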