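import Mathlib
import Pool.Agent.Y411.UF.KB
import Pool.Agent.Y411.UF.Cnt
import Pool.Agent.Y411.PB.Main

/-!
Two coprime bases: a uniform bound for the number of all pairs of exponents for which the sum or
difference of the powers is a perfect power with exponent at least three.
-/

set_option autoImplicit false

namespace Pool.Agent.Y411.UF

open Finset

/-- admissible exponents -/
def Adm (q : ℕ) : Prop := q = 4 ∨ (q.Prime ∧ q ≠ 2)

theorem Adm.three_le {q : ℕ} (h : Adm q) : 3 ≤ q := by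
  rcases h with h | ⟨h, h2⟩
  · omega
  · have := h.two_le; omega

theorem Adm.fac {q : ℕ} (h : Adm q) (p : ℕ) : q.factorization p ≤ 2 := by
  rcases h with h | ⟨h, h2⟩
  · subst h
    have e : (4 : ℕ) = 2 ^ 2 := by norm_num
    rw [e, Nat.Prime.factorization_pow Nat.prime_two, Finsupp.single_apply]
    split_ifs <;> omega
  · rw [h.factorization, Finsupp.single_apply]
    split_ifs <;> omega

theorem exists_root {c k : ℕ} (hk : 3 ≤ k) : ∃ q y : ℕ, Adm q ∧ c ^ k = y ^ q ∧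
    (1 ≤ c → 1 ≤ y) ∧ (y = 1 → c = 1) := by
  obtain ⟨q, hq, r, hr⟩ : ∃ q, Adm q ∧ q ∣ k := by
    by_cases h : ∃ p, p.Prime ∧ p ∣ k ∧ p ≠ 2
    · obtain ⟨p, hp, hpk, hp2⟩ := h
      exact ⟨p, Or.inr ⟨hp, hp2⟩, hpk⟩
    · push Not at h
      refine ⟨4, Or.inl rfl, ?_⟩
      have h1 : k = 2 ^ k.primeFactorsList.length :=
        Nat.eq_prime_pow_of_unique_prime_dvd (by omega) (fun {d} hd hdk => h d hd hdk)
      rw [h1]
      have h2 : 2 ≤ k.primeFactorsList.length := by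
        by_contra hcon
        push Not at hcon
        have h3 : 2 ^ k.primeFactorsList.length ≤ 2 ^ 1 :=
          Nat.pow_le_pow_right (by norm_num) (by omega)
        rw [← h1] at h3
        omega
      exact pow_dvd_pow 2 h2
  have hr0 : r ≠ 0 := by rintro rfl; omega
  refine ⟨q, c ^ r, hq, ?_, fun h => Nat.one_le_pow _ _ h, fun h => ?_⟩
  · rw [← pow_mul, hr, mul_comm]
  · exact (Nat.pow_eq_one.1 h).resolve_right hr0

/-- solutions for one exponent and one choice of signs -/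
def Sol (a b q : ℕ) (e₁ e₂ : ℤ) (x : ℕ × ℕ) : Prop :=
  1 ≤ x.1 ∧ 1 ≤ x.2 ∧ ∃ y : ℕ, 0 < y ∧ (y : ℤ) ^ q = e₁ * (a : ℤ) ^ x.1 + e₂ * (b : ℤ) ^ x.2

theorem sol_half {a b q S : ℕ} {e₁ e₂ : ℤ} (ha : 2 ≤ a) (hb : 2 ≤ b) (hab : Nat.Coprime a b)
    (hq : Adm q) (haS : a < 2 ^ S) (he₁ : e₁ = 1 ∨ e₁ = -1) (he₂ : e₂ = 1 ∨ e₂ = -1)
    {G : Finset (ℕ × ℕ)} (hG : ∀ x ∈ G, Sol a b q e₁ e₂ x ∧ b ^ x.2 ≤ a ^ x.1) :
    G.card ≤ 1536 * q ^ (a.primeFactors.card + 1) + (100 * q + 6 * S) ^ 2 := by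
  have hex : ∀ x ∈ G, ∃ y : ℕ, 0 < y ∧ (y : ℤ) ^ q = e₁ * (a : ℤ) ^ x.1 + e₂ * (b : ℤ) ^ x.2 :=
    fun x hx => (hG x hx).1.2.2
  choose! y hy using hex
  apply count_half ha hb hab hq.three_le hq.fac haS he₁ he₂ (y := y)
  intro x hx
  obtain ⟨⟨h1, h3, -⟩, h5⟩ := hG x hx
  exact ⟨(hy x hx).1, (hy x hx).2, h1, h3, h5⟩

theorem sol_count {a b q S K : ℕ} {e₁ e₂ : ℤ} (ha : 2 ≤ a) (hb : 2 ≤ b) (hab : Nat.Coprime a b)
    (hq : Adm q) (haS : a < 2 ^ S) (hbS : b < 2 ^ S) (hqK : q ≤ K) (hSK : S ≤ K)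
    (he₁ : e₁ = 1 ∨ e₁ = -1) (he₂ : e₂ = 1 ∨ e₂ = -1)
    {G : Finset (ℕ × ℕ)} (hG : ∀ x ∈ G, Sol a b q e₁ e₂ x) :
    G.card ≤ 26000 * K ^ (max a.primeFactors.card b.primeFactors.card + 2) := by
  classical
  set W := max a.primeFactors.card b.primeFactors.card with hW
  have hK1 : 1 ≤ K := by have := hq.three_le; omega
  have hbd : ∀ w, w ≤ W → 1536 * q ^ (w + 1) + (100 * q + 6 * S) ^ 2 ≤ 13000 * K ^ (W + 2) := by
    intro w hw
    have h1 : q ^ (w + 1) ≤ K ^ (W + 2) :=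
      (Nat.pow_le_pow_left hqK _).trans (Nat.pow_le_pow_right hK1 (by omega))
    have h2 : (100 * q + 6 * S) ^ 2 ≤ 11236 * K ^ (W + 2) := by
      calc (100 * q + 6 * S) ^ 2 ≤ (106 * K) ^ 2 := Nat.pow_le_pow_left (by omega) 2
        _ = 11236 * K ^ 2 := by rw [mul_pow]; norm_num
        _ ≤ 11236 * K ^ (W + 2) := Nat.mul_le_mul_left _ (Nat.pow_le_pow_right hK1 (by omega))
    omega
  rw [← card_filter_add_card_filter_not (s := G) (fun x => b ^ x.2 ≤ a ^ x.1)]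
  have h1 : (G.filter fun x => b ^ x.2 ≤ a ^ x.1).card ≤
      1536 * q ^ (a.primeFactors.card + 1) + (100 * q + 6 * S) ^ 2 := by
    apply sol_half ha hb hab hq haS he₁ he₂
    intro x hx
    obtain ⟨hx1, hx2⟩ := mem_filter.1 hx
    exact ⟨hG x hx1, hx2⟩
  have h2 : (G.filter fun x => ¬ b ^ x.2 ≤ a ^ x.1).card ≤
      1536 * q ^ (b.primeFactors.card + 1) + (100 * q + 6 * S) ^ 2 := by
    rw [← card_image_of_injective (G.filter fun x => ¬ b ^ x.2 ≤ a ^ x.1) Prod.swap_injective]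
    apply sol_half hb ha hab.symm hq hbS he₂ he₁
    intro x hx
    obtain ⟨z, hz, rfl⟩ := mem_image.1 hx
    obtain ⟨hx1, hx2⟩ := mem_filter.1 hz
    push Not at hx2
    obtain ⟨g1, g3, y, g5, g6⟩ := hG z hx1
    refine ⟨⟨g3, g1, y, g5, ?_⟩, hx2.le⟩
    rw [g6, add_comm]
    rfl
  have h3 := hbd _ (le_max_left a.primeFactors.card b.primeFactors.card)
  have h4 := hbd _ (le_max_right a.primeFactors.card b.primeFactors.card)
  omega

/-- the exceptional pairs of exponents -/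
def Exc (a b : ℕ) : Set (ℕ × ℕ) :=
  {x | 1 ≤ x.1 ∧ 1 ≤ x.2 ∧ ∃ c k : ℕ, 1 ≤ c ∧ 3 ≤ k ∧
    (a ^ x.1 + b ^ x.2 = c ^ k ∨ a ^ x.1 + c ^ k = b ^ x.2 ∨ b ^ x.2 + c ^ k = a ^ x.1)}

/-- every exceptional pair is a solution for a small admissible exponent -/
theorem exc_sol {a b P S : ℕ} (hP : P.Prime) (hPab : P ∣ a * b) (ha : 2 ≤ a) (hb : 2 ≤ b)
    (hab : Nat.Coprime a b) (haS : a < 2 ^ S) (hbS : b < 2 ^ S) {x : ℕ × ℕ} (hx : x ∈ Exc a b) :
    ∃ q : ℕ, Adm q ∧ q ≤ 128 * 2000000000 ^ 2 * (P * S) ^ 4 + 4 ∧ ∃ s : ℤ × ℤ,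
      s ∈ ({(1, 1), (-1, 1), (1, -1)} : Finset (ℤ × ℤ)) ∧ Sol a b q s.1 s.2 x := by
  obtain ⟨h1, h3, c, k, hc, hk, heq⟩ := hx
  obtain ⟨q, y, hq, hcy, hy1, hyc⟩ := exists_root (c := c) hk
  -- the signs
  obtain ⟨s, hs, hse⟩ : ∃ s : ℤ × ℤ, s ∈ ({(1, 1), (-1, 1), (1, -1)} : Finset (ℤ × ℤ)) ∧
      (c : ℤ) ^ k = s.1 * (a : ℤ) ^ x.1 + s.2 * (b : ℤ) ^ x.2 := by
    rcases heq with h | h | h
    · refine ⟨(1, 1), by simp, ?_⟩
      have : (a : ℤ) ^ x.1 + (b : ℤ) ^ x.2 = (c : ℤ) ^ k := by exact_mod_cast h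
      simp only; linarith
    · refine ⟨(-1, 1), by simp, ?_⟩
      have : (a : ℤ) ^ x.1 + (c : ℤ) ^ k = (b : ℤ) ^ x.2 := by exact_mod_cast h
      simp only; linarith
    · refine ⟨(1, -1), by simp, ?_⟩
      have : (b : ℤ) ^ x.2 + (c : ℤ) ^ k = (a : ℤ) ^ x.1 := by exact_mod_cast h
      simp only; linarith
  have hs12 : (s.1 = 1 ∨ s.1 = -1) ∧ (s.2 = 1 ∨ s.2 = -1) := by
    simp only [mem_insert, mem_singleton] at hs
    rcases hs with rfl | rfl | rfl <;> simp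
  rcases Nat.lt_or_ge y 2 with hy2 | hy2
  · -- the perfect power is `1`
    have hy : y = 1 := by have := hy1 hc; omega
    have hc1 := hyc hy
    refine ⟨3, Or.inr ⟨Nat.prime_three, by norm_num⟩, by omega, s, hs, h1, h3, 1, one_pos, ?_⟩
    rw [← hse, hc1]; simp
  · have hyq : (y : ℤ) ^ q = s.1 * (a : ℤ) ^ x.1 + s.2 * (b : ℤ) ^ x.2 := by
      rw [← hse]; exact_mod_cast hcy.symm
    refine ⟨q, hq, ?_, s, hs, h1, h3, y, by omega, hyq⟩
    rcases hq with hq | ⟨hq, -⟩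
    · rw [hq]; omega
    · have hle := kb hP hq ha hb hab hPab haS hbS h1 h3 hs12.1 hs12.2 hy2 hyq
      omega

/-- finite sets of exceptional pairs -/
theorem exc_card {a b P S : ℕ} (hP : P.Prime) (hPab : P ∣ a * b) (ha : 2 ≤ a) (hb : 2 ≤ b)
    (hab : Nat.Coprime a b) (haS : a < 2 ^ S) (hbS : b < 2 ^ S) {E : Finset (ℕ × ℕ)}
    (hE : ∀ x ∈ E, x ∈ Exc a b) :
    E.card ≤ (10000000 * (P * S)) ^ (16 * max a.primeFactors.card b.primeFactors.card) := by
  classical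
  set W := max a.primeFactors.card b.primeFactors.card with hW
  have hS1 : 2 ≤ S := by
    by_contra hcon
    push Not at hcon
    have h1 : 2 ^ S ≤ 2 ^ 1 := Nat.pow_le_pow_right (by norm_num) (by omega)
    omega
  have hPS : 4 ≤ P * S := Nat.mul_le_mul hP.two_le hS1
  have hPS4 : P * S ≤ (P * S) ^ 4 := Nat.le_self_pow (by norm_num) _
  have hSPS : S ≤ P * S := Nat.le_mul_of_pos_left _ hP.pos
  have hW1 : 1 ≤ W := by
    have h1 : 1 ≤ a.primeFactors.card := by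
      rw [Nat.one_le_iff_ne_zero, Ne, card_eq_zero, Nat.primeFactors_eq_empty]
      omega
    exact h1.trans (le_max_left _ _)
  obtain ⟨K, hK⟩ : ∃ K, K = 10 ^ 21 * (P * S) ^ 4 := ⟨_, rfl⟩
  have hqK : ∀ q, q ≤ 128 * 2000000000 ^ 2 * (P * S) ^ 4 + 4 → q ≤ K := by
    intro q hq
    rw [hK]
    refine hq.trans ?_
    norm_num
    omega
  have hSK : S ≤ K := by
    rw [hK]
    omega
  set T := ((range (K + 1)).filter Adm) ×ˢ
    ({(1, 1), (-1, 1), (1, -1)} : Finset (ℤ × ℤ)) with hT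
  have hsub : E ⊆ T.biUnion fun t => E.filter fun x => Sol a b t.1 t.2.1 t.2.2 x := by
    intro x hx
    obtain ⟨q, hq, hqK', s, hs, hsol⟩ := exc_sol hP hPab ha hb hab haS hbS (hE x hx)
    rw [mem_biUnion]
    refine ⟨(q, s), ?_, mem_filter.2 ⟨hx, hsol⟩⟩
    rw [hT, mem_product, mem_filter, mem_range]
    exact ⟨⟨Nat.lt_succ_of_le (hqK q hqK'), hq⟩, hs⟩
  have h1 : E.card ≤ ∑ t ∈ T, (26000 * K ^ (W + 2)) := by
    refine (card_le_card hsub).trans (card_biUnion_le.trans (sum_le_sum ?_))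
    rintro ⟨q, s⟩ ht
    rw [hT, mem_product, mem_filter, mem_range] at ht
    obtain ⟨⟨hqK, hq⟩, hs⟩ := ht
    simp only at hqK hq hs ⊢
    have hs12 : (s.1 = 1 ∨ s.1 = -1) ∧ (s.2 = 1 ∨ s.2 = -1) := by
      simp only [mem_insert, mem_singleton] at hs
      rcases hs with rfl | rfl | rfl <;> simp
    exact sol_count ha hb hab hq haS hbS (by omega) hSK hs12.1 hs12.2
      (G := E.filter fun x => Sol a b q s.1 s.2 x) (fun x hx => (mem_filter.1 hx).2)
  have h4 : T.card ≤ 3 * K := by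
    rw [hT, card_product]
    have h5 : ((range (K + 1)).filter Adm).card ≤ K := by
      have h6 : (range (K + 1)).filter Adm ⊆ Icc 1 K := by
        intro p hp
        obtain ⟨hp1, hp2⟩ := mem_filter.1 hp
        rw [mem_range] at hp1
        exact mem_Icc.2 ⟨by have := hp2.three_le; omega, by omega⟩
      have := card_le_card h6
      simpa using this
    have h6 : ({(1, 1), (-1, 1), (1, -1)} : Finset (ℤ × ℤ)).card ≤ 3 := card_le_three
    calc _ ≤ K * 3 := Nat.mul_le_mul h5 h6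
      _ = 3 * K := mul_comm _ _
  have h5 : E.card ≤ 78000 * K ^ (W + 3) := by
    calc E.card ≤ ∑ t ∈ T, (26000 * K ^ (W + 2)) := h1
      _ = T.card * (26000 * K ^ (W + 2)) := by rw [sum_const, smul_eq_mul]
      _ ≤ 3 * K * (26000 * K ^ (W + 2)) := Nat.mul_le_mul_right _ h4
      _ = 78000 * (K ^ (W + 2) * K) := by ring
      _ = 78000 * K ^ (W + 3) := by rw [← pow_succ]
  have h6 : 78000 * K ^ (W + 3) ≤ (78000 * K) ^ (W + 3) := by
    rw [mul_pow]
    exact Nat.mul_le_mul_right _ (Nat.le_self_pow (by omega) _)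
  have h7 : 78000 * K ≤ (10000000 * (P * S)) ^ 4 := by
    have h8 : 78000 * 10 ^ 21 ≤ 10000000 ^ 4 := by norm_num
    calc 78000 * K = (78000 * 10 ^ 21) * (P * S) ^ 4 := by rw [hK]; ring
      _ ≤ 10000000 ^ 4 * (P * S) ^ 4 := Nat.mul_le_mul_right _ h8
      _ = (10000000 * (P * S)) ^ 4 := (mul_pow _ _ _).symm
  calc E.card ≤ 78000 * K ^ (W + 3) := h5
    _ ≤ (78000 * K) ^ (W + 3) := h6
    _ ≤ ((10000000 * (P * S)) ^ 4) ^ (W + 3) := Nat.pow_le_pow_left h7 _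
    _ = (10000000 * (P * S)) ^ (4 * (W + 3)) := by rw [← pow_mul]
    _ ≤ (10000000 * (P * S)) ^ (16 * W) := Nat.pow_le_pow_right (by omega) (by omega)

/-- **two coprime bases, all exponents** -/
theorem main {a b : ℕ} (ha : 2 ≤ a) (hb : 2 ≤ b) (hab : Nat.Coprime a b) :
    (Exc a b).Finite ∧ ((Exc a b).ncard : ℝ) ≤
      (100000000 * (a * b).minFac * Real.log (a * b)) ^
        (16 * max a.primeFactors.card b.primeFactors.card) := by
  classical
  have hab1 : a * b ≠ 1 := by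
    have : 2 * 2 ≤ a * b := Nat.mul_le_mul ha hb
    omega
  have hP : (a * b).minFac.Prime := Nat.minFac_prime hab1
  have hPab : (a * b).minFac ∣ a * b := Nat.minFac_dvd _
  set P := (a * b).minFac with hPdef
  obtain ⟨S, hS⟩ : ∃ S, S = Nat.log 2 a + Nat.log 2 b + 2 := ⟨_, rfl⟩
  have hla : a < 2 ^ (Nat.log 2 a + 1) := Nat.lt_pow_succ_log_self (by norm_num) a
  have hlb : b < 2 ^ (Nat.log 2 b + 1) := Nat.lt_pow_succ_log_self (by norm_num) b
  have haS : a < 2 ^ S := hla.trans_le (Nat.pow_le_pow_right (by norm_num) (by omega))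
  have hbS : b < 2 ^ S := hlb.trans_le (Nat.pow_le_pow_right (by norm_num) (by omega))
  have hfin : (Exc a b).Finite := by
    by_contra hcon
    obtain ⟨t, ht, htc⟩ := Set.Infinite.exists_subset_card_eq hcon
      ((10000000 * (P * S)) ^ (16 * max a.primeFactors.card b.primeFactors.card) + 1)
    have := exc_card hP hPab ha hb hab haS hbS (E := t) (fun x hx => ht (mem_coe.2 hx))
    omega
  refine ⟨hfin, ?_⟩
  have hcard := exc_card hP hPab ha hb hab haS hbS (E := hfin.toFinset)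
    (fun x hx => (Set.Finite.mem_toFinset hfin).1 hx)
  rw [Set.ncard_eq_toFinset_card _ hfin]
  have hL : (S : ℝ) ≤ 3 * Real.log (a * b) := by
    have l1 : 2 ^ Nat.log 2 a ≤ a := Nat.pow_log_le_self 2 (by omega)
    have l2 : 2 ^ Nat.log 2 b ≤ b := Nat.pow_log_le_self 2 (by omega)
    have h1 : 2 ^ (Nat.log 2 a + Nat.log 2 b) ≤ a * b := by
      rw [pow_add]; exact Nat.mul_le_mul l1 l2
    have h2 : ((Nat.log 2 a + Nat.log 2 b : ℕ) : ℝ) * Real.log 2 ≤ Real.log (a * b) := by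
      rw [← Real.log_pow]
      exact Real.log_le_log (by positivity) (by exact_mod_cast h1)
    have h3 : Real.log 4 ≤ Real.log (a * b) := by
      apply Real.log_le_log (by norm_num)
      have : 2 * 2 ≤ a * b := Nat.mul_le_mul ha hb
      exact_mod_cast this
    have h4 : Real.log 4 = 2 * Real.log 2 := by
      have : (4 : ℝ) = 2 ^ 2 := by norm_num
      rw [this, Real.log_pow]; norm_num
    have h5 := PB.log_two_ge
    have hSr : (S : ℝ) = ((Nat.log 2 a + Nat.log 2 b : ℕ) : ℝ) + 2 := by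
      rw [hS]; push_cast; ring
    set X := ((Nat.log 2 a + Nat.log 2 b : ℕ) : ℝ) with hX
    have hX0 : 0 ≤ X := Nat.cast_nonneg _
    rw [hSr]
    have h6 : X * 0.69 ≤ X * Real.log 2 := mul_le_mul_of_nonneg_left h5 hX0
    linarith
  have hc3 : (hfin.toFinset.card : ℝ) ≤
      (((10000000 * (P * S)) ^ (16 * max a.primeFactors.card b.primeFactors.card) : ℕ) : ℝ) := by
    exact_mod_cast hcard
  refine hc3.trans ?_
  push_cast
  apply pow_le_pow_left₀ (by positivity)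
  have hP0 : (0 : ℝ) ≤ P := Nat.cast_nonneg _
  have h8 : (P : ℝ) * S ≤ P * (3 * Real.log (a * b)) := mul_le_mul_of_nonneg_left hL hP0
  have h9 : 0 ≤ (P : ℝ) * S := by positivity
  nlinarith

end Pool.Agent.Y411.UF
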